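import Pool.Agent.helper30.LS.Sym

/-!
# Shifted ordinates: the final theorem
-/

noncomputable section

namespace Pool.Agent.helper30.LS

open Complex MeasureTheory Set Filter Topology ArithmeticFunction
open Pool.Agent.helper30.LR
open Pool.Agent.helper18.LS (Wf)

/-- trapezoid -/
def tz (r η u : ℝ) : ℝ := max 0 (min 1 ((r - |u|) / η))

theorem tz_cont (r : ℝ) (η : ℝ) : Continuous (tz r η) := by
  unfold tz; fun_prop

theorem tz_nonneg (r η u : ℝ) : 0 ≤ tz r η u := le_max_left _ _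

theorem tz_le_one (r η u : ℝ) : tz r η u ≤ 1 := max_le zero_le_one (min_le_left _ _)

theorem tz_zero {r η u : ℝ} (hη : 0 < η) (h : r ≤ |u|) : tz r η u = 0 := by
  unfold tz
  refine max_eq_left ((min_le_right _ _).trans ?_)
  exact div_nonpos_of_nonpos_of_nonneg (by linarith) hη.le

theorem tz_one {r η u : ℝ} (hη : 0 < η) (h : |u| ≤ r - η) : tz r η u = 1 := by
  unfold tz
  have : 1 ≤ (r - |u|) / η := by rw [le_div_iff₀ hη]; linarith
  rw [min_eq_left this, max_eq_right zero_le_one]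

theorem tz_integrable {r η : ℝ} (hη : 0 < η) : Integrable (tz r η) := by
  refine (tz_cont r η).integrable_of_hasCompactSupport ?_
  refine HasCompactSupport.intro (isCompact_Icc (a := -r) (b := r)) fun u hu => ?_
  refine tz_zero hη ?_
  by_contra h
  push Not at h
  exact hu (abs_le.1 h.le)

theorem tz_int_le {r η : ℝ} (hη : 0 < η) (hr : 0 ≤ r) : ∫ u, tz r η u ≤ 2 * r := by
  have h1 : Integrable ((Icc (-r) r).indicator fun _ : ℝ => (1 : ℝ)) :=
    (integrable_indicator_iff measurableSet_Icc).2 (by simp)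
  calc ∫ u, tz r η u ≤ ∫ u, (Icc (-r) r).indicator (fun _ : ℝ => (1 : ℝ)) u := by
        refine integral_mono (tz_integrable hη) h1 fun u => ?_
        by_cases hu : u ∈ Icc (-r) r
        · rw [indicator_of_mem hu]; exact tz_le_one _ _ _
        · rw [indicator_of_notMem hu]
          refine (tz_zero hη ?_).le
          by_contra h
          push Not at h
          exact hu (abs_le.1 h.le)
    _ = 2 * r := by
        rw [integral_indicator measurableSet_Icc]
        simp only [integral_const, MeasurableSet.univ, measureReal_restrict_apply, univ_inter,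
          Real.volume_real_Icc, smul_eq_mul, mul_one]
        rw [max_eq_left (by linarith)]; ring

theorem le_tz_int {r η : ℝ} (hη : 0 < η) (hr : η ≤ r) : 2 * (r - η) ≤ ∫ u, tz r η u := by
  have h1 : Integrable ((Icc (-(r - η)) (r - η)).indicator fun _ : ℝ => (1 : ℝ)) :=
    (integrable_indicator_iff measurableSet_Icc).2 (by simp)
  calc 2 * (r - η) = ∫ u, (Icc (-(r - η)) (r - η)).indicator (fun _ : ℝ => (1 : ℝ)) u := by
        rw [integral_indicator measurableSet_Icc]
        simp only [integral_const, MeasurableSet.univ, measureReal_restrict_apply, univ_inter,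
          Real.volume_real_Icc, smul_eq_mul, mul_one]
        rw [max_eq_left (by linarith)]; ring
    _ ≤ ∫ u, tz r η u := by
        refine integral_mono h1 (tz_integrable hη) fun u => ?_
        by_cases hu : u ∈ Icc (-(r - η)) (r - η)
        · rw [indicator_of_mem hu, tz_one hη (abs_le.2 hu)]
        · rw [indicator_of_notMem hu]; exact tz_nonneg _ _ _

/-- the density of the weight is `∫ W / (2π)` -/
theorem ww_eq (J : ℕ) (c : ℕ → ℝ) : ww J c = (∫ u, Wf J c u) / (2 * Real.pi) := by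
  rw [(Pool.Agent.helper18.LS.Wf_integral J c).2, ww]
  have h : Real.sqrt Real.pi * Real.sqrt Real.pi = Real.pi :=
    Real.mul_self_sqrt Real.pi_pos.le
  have h0 : Real.sqrt Real.pi ≠ 0 := (Real.sqrt_pos.2 Real.pi_pos).ne'
  have e : ∀ S s p : ℝ, s ≠ 0 → s * s = p → 1 / (2 * s) * S = s * S / (2 * p) := by
    intro S s p h0 h
    rw [← h]
    field_simp
  exact e _ _ _ h0 h

theorem ww_lower {J : ℕ} {c : ℕ → ℝ} {η : ℝ} (hη : 0 < η) (hη1 : η ≤ 1)
    (h : ∀ u, tz 1 η u ≤ Wf J c u) : (1 - η) / Real.pi ≤ ww J c := by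
  rw [ww_eq]
  have h1 := integral_mono (tz_integrable hη) (Pool.Agent.helper18.LS.Wf_integral J c).1 h
  have h2 := le_tz_int hη hη1
  have hpi := Real.pi_pos
  rw [div_le_div_iff₀ hpi (by positivity)]
  nlinarith

theorem ww_upper {J : ℕ} {c : ℕ → ℝ} {η ε : ℝ} (hη : 0 < η) (hε : 0 < ε)
    (h : ∀ u, Wf J c u ≤ tz (1 + η) η u + ε * Real.exp (-u ^ 2)) :
    ww J c ≤ (1 + η + ε) / Real.pi := by
  rw [ww_eq]
  have hg : Integrable fun u : ℝ => Real.exp (-u ^ 2) := by
    have := integrable_exp_neg_mul_sq one_pos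
    simpa using this
  have hgi : ∫ u : ℝ, Real.exp (-u ^ 2) = Real.sqrt Real.pi := by
    have := integral_gaussian 1
    simpa using this
  have h1 := integral_mono (Pool.Agent.helper18.LS.Wf_integral J c).1
    ((tz_integrable hη).add (hg.const_mul ε)) h
  have h2 : ∫ u, (tz (1 + η) η + fun u : ℝ => ε * Real.exp (-u ^ 2)) u =
      (∫ u, tz (1 + η) η u) + ε * Real.sqrt Real.pi := by
    have e := integral_add (tz_integrable (r := 1 + η) hη) (hg.const_mul ε)
    rw [integral_const_mul, hgi] at e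
    exact e
  have h3 := tz_int_le hη (by linarith : 0 ≤ 1 + η)
  have hs : Real.sqrt Real.pi ≤ 2 := by
    rw [Real.sqrt_le_left (by norm_num)]; linarith [Real.pi_le_four]
  have h4 : ∫ u, Wf J c u ≤ 2 * (1 + η) + ε * 2 := by
    refine h1.trans ?_
    rw [h2]
    have := mul_le_mul_of_nonneg_left hs hε.le
    linarith
  have hpi := Real.pi_pos
  rw [div_le_div_iff₀ (by positivity) hpi]
  nlinarith

/-- one-sided sum as a finite sum -/
theorem sum_ords (hRH : RiemannHypothesis) (T : ℝ) (g : ℝ → ℝ) (h0 : ∀ t, mult t = 0 → g t = 0) :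
    ∑ᶠ γ ∈ ords T, g γ = ∑' t : ℝ, c1 T t * g t := by
  have hf := ords_finite hRH T
  rw [finsum_mem_eq_finite_toFinset_sum _ hf, tsum_eq_sum (s := hf.toFinset)]
  · refine Finset.sum_congr rfl fun γ hγ => ?_
    rw [Set.Finite.mem_toFinset] at hγ
    rw [c1, if_pos ⟨hγ.1, hγ.2.1⟩, one_mul]
  · intro γ hγ
    rw [Set.Finite.mem_toFinset] at hγ
    by_cases h : 0 < γ ∧ γ ≤ T
    · have h3 : riemannZeta (1 / 2 + γ * I) ≠ 0 := fun h0 => hγ ⟨h.1, h.2, h0⟩
      rw [h0 γ (mult_zero_of_ne h3), mul_zero]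
    · rw [c1, if_neg h, zero_mul]

theorem NN_upper (hRH : RiemannHypothesis) {θ : ℝ} (hθ : 0 < θ) :
    ∀ᶠ T in atTop, NN T ≤ (1 + 3 * θ) / (2 * Real.pi) * (T * Real.log T) := by
  obtain ⟨J, c, hW⟩ := Pool.Agent.helper18.LS.exists_weight (tz (1 + θ) θ) (tz_cont _ _)
    (fun u => by simp [tz]) (1 + θ) (fun u hu => tz_zero hθ hu) hθ
  obtain ⟨C, hC, hz⟩ := BW_zero hRH J c
  have hlim : Tendsto (fun T : ℝ => C / Real.log T) atTop (𝓝 0) :=
    tendsto_const_nhds.div_atTop Real.tendsto_log_atTop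
  have hpi := Real.pi_pos
  have hev := hlim.eventually_le_const (u := θ / Real.pi) (by positivity)
  filter_upwards [hz, hev, eventually_ge_atTop 3] with T e1 e2 hT3
  have hT0 : 0 < T := by linarith
  have hL : 1 ≤ Real.log T := by
    rw [Real.le_log_iff_exp_le (by linarith)]
    linarith [Real.exp_one_lt_d9]
  have h1 : NN T = ∑' t : ℝ, c1 T t * (mult t : ℝ) :=
    sum_ords hRH T (fun t => (mult t : ℝ)) fun t ht => by rw [ht]; simp
  have s1 : Summable fun t : ℝ => c1 T t * (mult t : ℝ) :=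
    summable_cpt hRH _ T (fun t ht => by rw [c1_zero ht, zero_mul])
      fun t ht => by rw [ht]; simp
  have s1' : Summable fun t : ℝ => c1 T (-t) * (mult t : ℝ) :=
    summable_cpt hRH _ T (fun t ht => by rw [c1_zero (by rwa [abs_neg]), zero_mul])
      fun t ht => by rw [ht]; simp
  have h2 : ∑' t : ℝ, c1 T (-t) * (mult t : ℝ) = ∑' t : ℝ, c1 T t * (mult t : ℝ) := by
    rw [← (Equiv.neg ℝ).tsum_eq]
    exact tsum_congr fun s => by simp [mult_neg]
  have hB := hasSum_BW hRH J c hT0 0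
  have h3 : ∑' t : ℝ, c1 T t * (mult t : ℝ) + ∑' t : ℝ, c1 T (-t) * (mult t : ℝ) ≤
      BW J c T 0 := by
    rw [← s1.tsum_add s1', ← hB.tsum_eq]
    refine (s1.add s1').tsum_le_tsum (fun t => ?_) hB.summable
    rw [zero_mul, Real.cos_zero, mul_one]
    have h5 : (0 : ℝ) ≤ mult t := Nat.cast_nonneg _
    have h6 : c1 T t + c1 T (-t) ≤ Wf J c (t / T) := by
      refine le_trans ?_ (hW (t / T)).1
      by_cases ht : |t| ≤ T
      · have h7 : tz (1 + θ) θ (t / T) = 1 := by
          refine tz_one hθ ?_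
          rw [abs_div, abs_of_pos hT0, div_le_iff₀ hT0]; linarith
        rw [h7]
        by_cases h0 : t = 0
        · simp [h0, c1]
        · rw [← c2_split t h0]
          rw [c2, if_pos ht]
      · rw [c1_zero (by linarith), c1_zero (by rw [abs_neg]; linarith)]
        have := tz_nonneg (1 + θ) θ (t / T)
        linarith
    nlinarith
  have h8 := ww_upper hθ hθ fun u => (hW u).2
  have h9 := (abs_le.1 e1).2
  have h10 : C * T ≤ θ / Real.pi * (T * Real.log T) := by
    rw [div_le_iff₀ (by linarith)] at e2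
    calc C * T ≤ (θ / Real.pi * Real.log T) * T := by gcongr
      _ = _ := by ring
  have h11 : T * ww J c * Real.log T ≤ (1 + θ + θ) / Real.pi * (T * Real.log T) := by
    calc T * ww J c * Real.log T = ww J c * (T * Real.log T) := by ring
      _ ≤ _ := by gcongr
  have h12 : 2 * NN T ≤ (1 + θ + θ) / Real.pi * (T * Real.log T) +
      θ / Real.pi * (T * Real.log T) := by
    rw [h1]; linarith
  have e3 : (1 + 3 * θ) / (2 * Real.pi) * (T * Real.log T) = ((1 + θ + θ) / Real.pi *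
      (T * Real.log T) + θ / Real.pi * (T * Real.log T)) / 2 := by
    field_simp; ring
  rw [e3]; linarith

/-- profile -/
def pf (θ u : ℝ) : ℝ := max 0 (min 1 ((1 - θ - u) / θ))

theorem pf_cont (θ : ℝ) : Continuous (pf θ) := by unfold pf; fun_prop

theorem pf_nonneg (θ u : ℝ) : 0 ≤ pf θ u := le_max_left _ _

theorem pf_le_one (θ u : ℝ) : pf θ u ≤ 1 := max_le zero_le_one (min_le_left _ _)

theorem pf_zero {θ u : ℝ} (hθ : 0 < θ) (h : 1 - θ ≤ u) : pf θ u = 0 := by
  unfold pf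
  refine max_eq_left ((min_le_right _ _).trans ?_)
  exact div_nonpos_of_nonpos_of_nonneg (by linarith) hθ.le

theorem pf_one {θ u : ℝ} (hθ : 0 < θ) (h : u ≤ 1 - 2 * θ) : pf θ u = 1 := by
  unfold pf
  have : 1 ≤ (1 - θ - u) / θ := by rw [le_div_iff₀ hθ]; linarith
  rw [min_eq_left this, max_eq_right zero_le_one]

theorem pf_int {θ : ℝ} (hθ : 0 < θ) (hθ1 : θ ≤ 1 / 4) :
    (1 - 2 * θ) ^ 2 / 2 ≤ 2 * (∫ u in Ioi (0 : ℝ), u * pf θ u ^ (0 + 1)) -
      ∫ u in Ioi (0 : ℝ), u * pf θ u ^ (1 + 1) := by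
  have hint : ∀ k : ℕ, IntegrableOn (fun u : ℝ => u * pf θ u ^ (k + 1)) (Ioi 0) := by
    intro k
    have hc : Continuous fun u : ℝ => u * pf θ u ^ (k + 1) :=
      continuous_id.mul ((pf_cont θ).pow _)
    have h1 : IntegrableOn (fun u : ℝ => u * pf θ u ^ (k + 1)) (Ioc 0 1) :=
      (hc.continuousOn.integrableOn_Icc).mono_set Ioc_subset_Icc_self
    have h2 : IntegrableOn (fun u : ℝ => u * pf θ u ^ (k + 1)) (Ioi 1) := by
      refine (integrableOn_zero : IntegrableOn (fun _ : ℝ => (0 : ℝ)) (Ioi 1)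
        volume).congr_fun (fun u hu => ?_) measurableSet_Ioi
      have hu1 : (1 : ℝ) < u := hu
      have h0 : pf θ u = 0 := pf_zero hθ (by linarith)
      simp only [h0]; simp
    have h3 := h1.union h2
    rwa [Ioc_union_Ioi_eq_Ioi zero_le_one] at h3
  have h1 : ∫ u in Ioi (0 : ℝ), u * pf θ u ^ (1 + 1) ≤
      ∫ u in Ioi (0 : ℝ), u * pf θ u ^ (0 + 1) := by
    refine setIntegral_mono_on (hint 1) (hint 0) measurableSet_Ioi fun u hu => ?_
    have hu0 : (0 : ℝ) < u := hu
    have h2 := pf_nonneg θ u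
    have h3 := pf_le_one θ u
    have h5 : pf θ u ^ (1 + 1) = pf θ u * pf θ u := by ring
    have h6 : pf θ u ^ (0 + 1) = pf θ u := by ring
    have h4 : pf θ u ^ (1 + 1) ≤ pf θ u ^ (0 + 1) := by rw [h5, h6]; nlinarith
    gcongr
  have h2 : (1 - 2 * θ) ^ 2 / 2 ≤ ∫ u in Ioi (0 : ℝ), u * pf θ u ^ (0 + 1) := by
    have h3 : ∫ u in Ioc (0 : ℝ) (1 - 2 * θ), u * pf θ u ^ (0 + 1) ≤
        ∫ u in Ioi (0 : ℝ), u * pf θ u ^ (0 + 1) := by
      refine setIntegral_mono_set (hint 0) ?_ (Eventually.of_forall fun u hu => hu.1)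
      refine (ae_restrict_iff' measurableSet_Ioi).2 (Eventually.of_forall fun u hu => ?_)
      have hu0 : (0 : ℝ) < u := hu
      have := pf_nonneg θ u
      positivity
    refine le_trans (le_of_eq ?_) h3
    have h4 : ∫ u in Ioc (0 : ℝ) (1 - 2 * θ), u * pf θ u ^ (0 + 1) =
        ∫ u in Ioc (0 : ℝ) (1 - 2 * θ), u := by
      refine setIntegral_congr_fun measurableSet_Ioc fun u hu => ?_
      rw [pf_one hθ hu.2]; ring
    rw [h4, ← intervalIntegral.integral_of_le (by linarith), integral_id]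
    ring
  linarith

/-- what remains to be compared in the limit `θ → 0` -/
theorem exists_theta {ε E : ℝ} (hε : 0 < ε) : ∃ θ : ℝ, 0 < θ ∧ θ ≤ 1 / 4 ∧
    (1 / 4 - ε) * ((1 + 3 * θ) / (2 * Real.pi)) <
      1 / 4 * ((1 - θ) / Real.pi * ((1 - 2 * θ) ^ 2 / 2) - θ) - θ * E - θ := by
  have hpi := Real.pi_pos
  have h1 : Tendsto (fun θ : ℝ => 1 / 4 * ((1 - θ) / Real.pi * ((1 - 2 * θ) ^ 2 / 2) - θ) -
      θ * E - θ - (1 / 4 - ε) * ((1 + 3 * θ) / (2 * Real.pi))) (𝓝[>] 0)
      (𝓝 (1 / 4 * ((1 - 0) / Real.pi * ((1 - 2 * 0) ^ 2 / 2) - 0) -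
      0 * E - 0 - (1 / 4 - ε) * ((1 + 3 * 0) / (2 * Real.pi)))) := by
    refine Tendsto.mono_left ?_ nhdsWithin_le_nhds
    exact Continuous.tendsto (by fun_prop) 0
  have h2 : 0 < 1 / 4 * ((1 - 0) / Real.pi * ((1 - 2 * 0) ^ 2 / 2) - 0) -
      0 * E - 0 - (1 / 4 - ε) * ((1 + 3 * 0) / (2 * Real.pi)) := by
    have : 1 / 4 * ((1 - 0) / Real.pi * ((1 - 2 * 0) ^ 2 / 2) - 0) -
      0 * E - 0 - (1 / 4 - ε) * ((1 + 3 * 0) / (2 * Real.pi)) = ε / (2 * Real.pi) := by
      field_simp; ring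
    rw [this]; positivity
  have h3 := (h1.eventually_const_lt h2).and
    (Ioo_mem_nhdsGT (by norm_num : (0 : ℝ) < 1 / 4))
  obtain ⟨θ, h4, h5, h6⟩ := h3.exists
  exact ⟨θ, h5, h6.le, by linarith⟩

theorem quarter (hRH : RiemannHypothesis) {α : ℝ} (hα : α ≠ 0) {ε : ℝ} (hε : 0 < ε) :
    ∃ T0 : ℝ, ∀ T : ℝ, T0 ≤ T →
      (1 / 4 - ε) * NN T ≤ ∑ᶠ γ ∈ ords T, max ((mult γ : ℝ) - mult (γ + α)) 0 := by
  have hpi := Real.pi_pos
  obtain ⟨Cm, hCm, hm⟩ := MM_bound hRH
  obtain ⟨Cr, hCr, hr⟩ := RR_bound hRH α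
  wlog hε4 : ε ≤ 1 / 4 with H
  · obtain ⟨T0, h⟩ := H hRH hα (ε := 1 / 4) (by norm_num) hpi Cm hCm hm Cr hCr hr le_rfl
    refine ⟨T0, fun T hT => (le_trans ?_ (h T hT))⟩
    push Not at hε4
    have hN : 0 ≤ NN T := by
      rw [NN, sum_ords hRH T (fun t => (mult t : ℝ)) fun t ht => by rw [ht]; simp]
      exact tsum_nonneg fun t => mul_nonneg (c1_nonneg _ _) (Nat.cast_nonneg _)
    have : (1 / 4 - ε) * NN T ≤ 0 := mul_nonpos_of_nonpos_of_nonneg (by linarith) hN
    linarith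
  obtain ⟨θ, hθ0, hθ4, hθ⟩ := exists_theta (ε := ε) (E := 3 / 2 * Cm) hε
  obtain ⟨J, c, hW⟩ := Pool.Agent.helper18.LS.exists_weight (tz 1 θ) (tz_cont _ _)
    (fun u => by simp [tz]) 1 (fun u hu => tz_zero hθ0 hu) hθ0
  have hW0 : ∀ u, 0 ≤ Wf J c u := fun u => (tz_nonneg 1 θ u).trans (hW u).1
  obtain ⟨Cl, hCl, hlip⟩ := Pool.Agent.helper18.LS.Wf_lipschitz J c
  have hA := thmA hRH hW0 hα (pf_cont θ) (pf_nonneg θ) (pf_le_one θ) (β := 1 - θ)
    (by linarith) (by linarith) (fun u hu => pf_zero hθ0 hu) hθ0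
  have hN := NN_upper hRH hθ0
  have hlim : Tendsto (fun T : ℝ => (Cl * |α| * Cm / 4 + 2 * Cr) / T) atTop (𝓝 0) :=
    tendsto_const_nhds.div_atTop tendsto_id
  have hev := hlim.eventually_le_const (u := θ) hθ0
  have hfin : ∀ᶠ T in atTop, (1 / 4 - ε) * NN T ≤
      ∑ᶠ γ ∈ ords T, max ((mult γ : ℝ) - mult (γ + α)) 0 := by
    filter_upwards [hA, hN, hev, hm, hr, eventually_ge_atTop 3, eventually_ge_atTop |α|]
      with T eA eN e3 em er hT3 hTα
    have hT0 : 0 < T := by linarith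
    have hL : 1 ≤ Real.log T := by
      rw [Real.le_log_iff_exp_le (by linarith)]
      linarith [Real.exp_one_lt_d9]
    set L := Real.log T with hLdef
    have hL0 : 0 < L := by linarith
    have hS1 : ∑ᶠ γ ∈ ords T, max ((mult γ : ℝ) - mult (γ + α)) 0 =
        ∑' t : ℝ, c1 T t * FF α t := by
      rw [← sum_ords hRH T (FF α) fun t ht => le_antisymm (by
        have := FF_le α t
        rw [ht] at this
        simpa using this) (FF_nonneg α t)]
      rfl
    obtain ⟨sν, hsym⟩ := sym_le hRH α hT0.le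
    have hG : ∀ t : ℝ, |(fun _ => (1 : ℝ)) t| ≤ 1 := fun t => by simp
    have q0 := summable_WG hRH J c hT0 (fun _ => 1) hG
    obtain ⟨q1, q2⟩ := shift_sum hRH hlip hT0 hTα hG
    obtain ⟨sA, -⟩ := core hRH hW0 hlip hT0 hTα ∅ (fun _ => 0) (fun _ => 0) (L := 1) one_pos
    have pw : ∀ t : ℝ, Wf J c (t / T) * |(mult t : ℝ) - mult (t - α)| =
        2 * (Wf J c (t / T) * FF α (t - α)) + (mult t : ℝ) * (Wf J c (t / T) * 1) -
        (mult (t - α) : ℝ) * (Wf J c (t / T) * 1) := by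
      intro t
      have e : |(mult t : ℝ) - mult (t - α)| = 2 * FF α (t - α) +
          ((mult t : ℝ) - mult (t - α)) := by
        unfold FF
        rw [sub_add_cancel]
        rcases le_total (mult t : ℝ) (mult (t - α)) with h | h
        · rw [abs_of_nonpos (by linarith), max_eq_left (by linarith)]; ring
        · rw [abs_of_nonneg (by linarith), max_eq_right (by linarith)]; ring
      rw [e]; ring
    have sF : Summable fun t : ℝ => Wf J c (t / T) * FF α (t - α) := by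
      refine Summable.of_nonneg_of_le (fun t => mul_nonneg (hW0 _) (FF_nonneg _ _)) (fun t => ?_) q1
      have h1 := FF_le α (t - α)
      have h2 := hW0 (t / T)
      rw [mul_one, mul_comm (mult (t - α) : ℝ)]
      gcongr
    have eAeq : ∑' t : ℝ, Wf J c (t / T) * |(mult t : ℝ) - mult (t - α)| =
        2 * ∑' t : ℝ, Wf J c (t / T) * FF α (t - α) +
        ∑' t : ℝ, (mult t : ℝ) * (Wf J c (t / T) * 1) -
        ∑' t : ℝ, (mult (t - α) : ℝ) * (Wf J c (t / T) * 1) := by
      rw [← tsum_mul_left, ← (sF.mul_left 2).tsum_add q0,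
        ← ((sF.mul_left 2).add q0).tsum_sub q1]
      exact tsum_congr pw
    -- from `W` to the indicator
    have hms := mass_sum hRH hT0 (1 / 4) (by norm_num)
    have hge : ∀ s : ℝ, (mult s : ℝ) * Real.exp (-((s + α) / T) ^ 2) ≤
        3 * ((mult s : ℝ) * Real.exp (-(1 / 4 * (s / T) ^ 2))) := by
      intro s
      have h1 : -((s + α) / T) ^ 2 ≤ 1 + -(1 / 4 * (s / T) ^ 2) := by
        have h2 : (α / T) ^ 2 ≤ 1 := by
          rw [sq_le_one_iff_abs_le_one, abs_div, abs_of_pos hT0, div_le_one hT0]; exact hTα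
        have e : (s + α) / T = s / T + α / T := add_div _ _ _
        rw [e]
        nlinarith [sq_nonneg (s / T + 2 * (α / T)), sq_nonneg (s / T)]
      have h3 : Real.exp (-((s + α) / T) ^ 2) ≤ 3 * Real.exp (-(1 / 4 * (s / T) ^ 2)) := by
        refine (Real.exp_le_exp.2 h1).trans ?_
        rw [Real.exp_add]
        have := Real.exp_one_lt_d9
        have := Real.exp_pos (-(1 / 4 * (s / T) ^ 2))
        nlinarith
      calc (mult s : ℝ) * Real.exp (-((s + α) / T) ^ 2) ≤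
          (mult s : ℝ) * (3 * Real.exp (-(1 / 4 * (s / T) ^ 2))) := by gcongr
        _ = _ := by ring
    have sg0 : Summable fun s : ℝ => (mult s : ℝ) * Real.exp (-((s + α) / T) ^ 2) :=
      Summable.of_nonneg_of_le (fun t => by positivity) hge (hms.mul_left 3)
    have sg : Summable fun t : ℝ => (mult (t - α) : ℝ) * Real.exp (-(t / T) ^ 2) := by
      have e : (fun s : ℝ => (mult s : ℝ) * Real.exp (-((s + α) / T) ^ 2)) =
          (fun t : ℝ => (mult (t - α) : ℝ) * Real.exp (-(t / T) ^ 2)) ∘ (Equiv.addRight α) := by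
        funext s; simp
      rw [e] at sg0
      exact (Equiv.addRight α).summable_iff.mp sg0
    have hg3 : ∑' t : ℝ, (mult (t - α) : ℝ) * Real.exp (-(t / T) ^ 2) ≤ 3 * MM T := by
      have e : ∑' t : ℝ, (mult (t - α) : ℝ) * Real.exp (-(t / T) ^ 2) =
          ∑' s : ℝ, (mult s : ℝ) * Real.exp (-((s + α) / T) ^ 2) := by
        rw [← (Equiv.addRight α).tsum_eq]
        exact tsum_congr fun s => by simp
      rw [e, MM, ← tsum_mul_left]
      exact sg0.tsum_le_tsum hge (hms.mul_left 3)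
    have hWF : ∑' t : ℝ, Wf J c (t / T) * FF α (t - α) ≤
        ∑' t : ℝ, c2 T t * FF α (t - α) +
        θ * ∑' t : ℝ, (mult (t - α) : ℝ) * Real.exp (-(t / T) ^ 2) := by
      rw [← tsum_mul_left, ← sν.tsum_add (sg.mul_left θ)]
      refine sF.tsum_le_tsum (fun t => ?_) (sν.add (sg.mul_left θ))
      have h1 := (hW (t / T)).2
      have h2 : tz 1 θ (t / T) ≤ c2 T t := by
        by_cases ht : |t| ≤ T
        · rw [c2, if_pos ht]; exact tz_le_one _ _ _
        · rw [tz_zero hθ0]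
          · exact c2_nonneg _ _
          · rw [abs_div, abs_of_pos hT0, le_div_iff₀ hT0]; linarith
      have h3 := FF_nonneg α (t - α)
      have h4 := FF_le α (t - α)
      calc Wf J c (t / T) * FF α (t - α) ≤
          (c2 T t + θ * Real.exp (-(t / T) ^ 2)) * FF α (t - α) := by
            gcongr; linarith
        _ = c2 T t * FF α (t - α) + θ * (FF α (t - α) * Real.exp (-(t / T) ^ 2)) := by ring
        _ ≤ _ := by gcongr
    have q3 := (abs_le.1 q2).1
    rw [hS1]
    -- numbers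
    set S1 := ∑' t : ℝ, c1 T t * FF α t
    set SA := ∑' t : ℝ, Wf J c (t / T) * |(mult t : ℝ) - mult (t - α)|
    set SF := ∑' t : ℝ, Wf J c (t / T) * FF α (t - α)
    set X0 := ∑' t : ℝ, (mult t : ℝ) * (Wf J c (t / T) * 1)
    set X1 := ∑' t : ℝ, (mult (t - α) : ℝ) * (Wf J c (t / T) * 1)
    set Y := ∑' t : ℝ, (mult (t - α) : ℝ) * Real.exp (-(t / T) ^ 2)
    set Z := ∑' t : ℝ, c2 T t * FF α (t - α)
    have k1 : Cl * (|α| / T) * MM T * 1 ≤ Cl * |α| * Cm * L := by
      calc Cl * (|α| / T) * MM T * 1 ≤ Cl * (|α| / T) * (Cm * (T * L)) * 1 := by gcongr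
        _ = _ := by field_simp
    have k2 : SA - Cl * |α| * Cm * L ≤ 2 * SF := by linarith
    have k3 : SF ≤ 2 * S1 + 4 * (Cr * L) + θ * (3 * (Cm * (T * L))) := by
      have : θ * Y ≤ θ * (3 * (Cm * (T * L))) := by
        have := hg3.trans (mul_le_mul_of_nonneg_left em (by norm_num : (0 : ℝ) ≤ 3))
        gcongr
      linarith
    have k4 : (Cl * |α| * Cm / 4 + 2 * Cr) * L ≤ θ * (T * L) := by
      rw [div_le_iff₀ hT0] at e3
      calc (Cl * |α| * Cm / 4 + 2 * Cr) * L ≤ (θ * T) * L := by gcongr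
        _ = _ := by ring
    have k5 : ((1 - θ) / Real.pi * ((1 - 2 * θ) ^ 2 / 2) - θ) * (T * L) ≤ SA := by
      refine le_trans ?_ eA
      have w1 := ww_lower hθ0 (by linarith) fun u => (hW u).1
      have w2 := pf_int hθ0 hθ4
      have w3 : 0 ≤ (1 - θ) / Real.pi := div_nonneg (by linarith) hpi.le
      have w4 : 0 ≤ (1 - 2 * θ) ^ 2 / 2 := by positivity
      have w5 := mul_le_mul w1 w2 w4 (w3.trans w1)
      have w6 : 0 ≤ T * L := by positivity
      gcongr
    have k6 : (1 / 4 - ε) * NN T ≤ (1 / 4 - ε) * ((1 + 3 * θ) / (2 * Real.pi)) * (T * L) := by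
      rw [mul_assoc]
      exact mul_le_mul_of_nonneg_left eN (by linarith)
    have k7 : (1 / 4 - ε) * ((1 + 3 * θ) / (2 * Real.pi)) * (T * L) ≤
        (1 / 4 * ((1 - θ) / Real.pi * ((1 - 2 * θ) ^ 2 / 2) - θ) - θ * (3 / 2 * Cm) - θ) *
          (T * L) := by
      have w6 : 0 ≤ T * L := by positivity
      exact mul_le_mul_of_nonneg_right hθ.le w6
    have e9 : (1 / 4 * ((1 - θ) / Real.pi * ((1 - 2 * θ) ^ 2 / 2) - θ) - θ * (3 / 2 * Cm) - θ) *
          (T * L) = 1 / 4 * (((1 - θ) / Real.pi * ((1 - 2 * θ) ^ 2 / 2) - θ) * (T * L)) -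
          1 / 2 * (θ * (3 * (Cm * (T * L)))) - θ * (T * L) := by ring
    linarith
  exact eventually_atTop.1 hfin

end Pool.Agent.helper30.LS
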