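import Pool.Agent.helper30.LS.Primes

/-!
# Lower bound for the weighted total variation
-/

noncomputable section

namespace Pool.Agent.helper30.LS

open Complex MeasureTheory Set Filter Topology ArithmeticFunction
open Pool.Agent.helper30.LR
open Pool.Agent.helper18.LS (Wf)

/-- the coefficients `a_p (1 - p^{-iα})` -/
def dd (φ : ℝ → ℝ) (α T : ℝ) (p : ℕ) : ℂ :=
  (aa φ T p : ℂ) * (1 - cexp ((-(Real.log p * α) : ℝ) * I))

theorem dd_diff (φ : ℝ → ℝ) (α T : ℝ) (p : ℕ) :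
    (dd φ α T p).re - (dd φ α T p * cexp ((Real.log p * α : ℝ) * I)).re =
      2 * (aa φ T p * (1 - Real.cos (α * Real.log p))) := by
  have e : dd φ α T p * cexp ((Real.log p * α : ℝ) * I) =
      (aa φ T p : ℂ) * (cexp ((Real.log p * α : ℝ) * I) - 1) := by
    unfold dd
    rw [mul_assoc, sub_mul, one_mul, ← Complex.exp_add]
    have : ((-(Real.log p * α) : ℝ) : ℂ) * I + ((Real.log p * α : ℝ) : ℂ) * I = 0 := by
      push_cast; ring
    rw [this, Complex.exp_zero]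
  rw [e, dd, Complex.re_ofReal_mul, Complex.re_ofReal_mul, Complex.sub_re, Complex.sub_re,
    Complex.exp_ofReal_mul_I_re, Complex.exp_ofReal_mul_I_re, Real.cos_neg, Complex.one_re,
    mul_comm (Real.log p) α]
  ring

theorem dd_normsq (φ : ℝ → ℝ) (α T : ℝ) (p : ℕ) :
    ‖dd φ α T p‖ ^ 2 = 2 * (aa φ T p ^ 2 * (1 - Real.cos (α * Real.log p))) := by
  unfold dd
  rw [norm_mul, mul_pow, Complex.norm_real, Real.norm_eq_abs, sq_abs, ← Complex.normSq_eq_norm_sq,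
    Complex.normSq_apply, Complex.sub_re, Complex.sub_im, Complex.exp_ofReal_mul_I_re,
    Complex.exp_ofReal_mul_I_im, Complex.one_re, Complex.one_im, Real.cos_neg, Real.sin_neg,
    mul_comm (Real.log p) α]
  have := Real.sin_sq_add_cos_sq (α * Real.log p)
  nlinarith

theorem dd_norm {φ : ℝ → ℝ} (h0 : ∀ u, 0 ≤ φ u) (α T : ℝ) (p : ℕ) :
    ‖dd φ α T p‖ ≤ 2 * aa φ T p := by
  unfold dd
  rw [norm_mul, Complex.norm_real, Real.norm_eq_abs, abs_of_nonneg (aa_nonneg h0 T p)]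
  have : ‖(1 : ℂ) - cexp ((-(Real.log p * α) : ℝ) * I)‖ ≤ 2 := by
    refine (norm_sub_le _ _).trans ?_
    rw [Complex.norm_exp_ofReal_mul_I, norm_one]; norm_num
  have := mul_le_mul_of_nonneg_left this (aa_nonneg h0 T p)
  linarith

theorem alg (T L w x y Cz Cp Cr Co Cl a Cm P : ℝ) (hT : T ≠ 0) (hL : L ≠ 0) :
    (2 * w * x - y * (w + Cz / L) - 8 * Cp * (P * L ^ 0 / T) - 2 * Cr * Co * (P * L ^ 1 / T) -
      8 * Cl * a * Cm * (P * L ^ 0 / T)) * (T * L) =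
      -(1 / L) * (-(2 * T * w * (L ^ 2 * x)) + 8 * Cp * L ^ 2 * P) -
      1 / (4 * L ^ 2) * (2 * (2 * (L ^ 2 * y) * (T * w * L + Cz * T)) +
        2 * (4 * Cr * (Co * (L ^ 4 * P)))) - Cl * a * Cm * L * (8 * P) := by
  field_simp
  ring

theorem thmA (hRH : RiemannHypothesis) {J : ℕ} {c : ℕ → ℝ} (hW : ∀ u, 0 ≤ Wf J c u)
    {α : ℝ} (hα : α ≠ 0) {φ : ℝ → ℝ} (hφ : Continuous φ) (h0 : ∀ u, 0 ≤ φ u)
    (h1 : ∀ u, φ u ≤ 1) {β : ℝ} (hβ0 : 0 < β) (hβ1 : β < 1) (hb : ∀ u, β ≤ u → φ u = 0)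
    {δ : ℝ} (hδ : 0 < δ) :
    ∀ᶠ T in atTop, (ww J c * (2 * (∫ u in Ioi (0 : ℝ), u * φ u ^ (0 + 1)) -
        ∫ u in Ioi (0 : ℝ), u * φ u ^ (1 + 1)) - δ) * (T * Real.log T) ≤
      ∑' t : ℝ, Wf J c (t / T) * |(mult t : ℝ) - mult (t - α)| := by
  obtain ⟨Cl, hCl, hlip⟩ := Pool.Agent.helper18.LS.Wf_lipschitz J c
  obtain ⟨Cz, hCz, hz⟩ := BW_zero hRH J c
  obtain ⟨Cp, hCp, hp⟩ := BW_prime hRH J c hβ0 hβ1
  obtain ⟨Cr, hCr, hr⟩ := BW_ratio hRH J c hβ0 hβ1
  obtain ⟨Cm, hCm, hm⟩ := MM_bound hRH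
  obtain ⟨Co, hCo, ho⟩ := sum_off h0 h1 hβ0 hβ1.le
  have l1 := prime_lim φ hφ hb hα 0
  have l2 := prime_lim φ hφ hb hα 1
  set s1 := ∫ u in Ioi (0 : ℝ), u * φ u ^ (0 + 1)
  set s2 := ∫ u in Ioi (0 : ℝ), u * φ u ^ (1 + 1)
  set A1 : ℝ → ℝ := fun T => 1 / Real.log T ^ 2 * ∑ p ∈ SP β T, Real.log p ^ 2 / p *
      φ (Real.log p / Real.log T) ^ (0 + 1) * (1 - Real.cos (α * Real.log p)) with hA1
  set A2 : ℝ → ℝ := fun T => 1 / Real.log T ^ 2 * ∑ p ∈ SP β T, Real.log p ^ 2 / p *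
      φ (Real.log p / Real.log T) ^ (1 + 1) * (1 - Real.cos (α * Real.log p)) with hA2
  set w := ww J c with hw
  -- the limit
  have hinv : Tendsto (fun T : ℝ => Cz / Real.log T) atTop (𝓝 0) :=
    tendsto_const_nhds.div_atTop Real.tendsto_log_atTop
  have hlim : Tendsto (fun T : ℝ => 2 * w * A1 T - A2 T * (w + Cz / Real.log T) -
      8 * Cp * (T ^ β * Real.log T ^ 0 / T) - 2 * Cr * Co * (T ^ β * Real.log T ^ 1 / T) -
      8 * Cl * |α| * Cm * (T ^ β * Real.log T ^ 0 / T)) atTop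
      (𝓝 (2 * w * s1 - s2 * (w + 0) - 8 * Cp * 0 - 2 * Cr * Co * 0 - 8 * Cl * |α| * Cm * 0)) :=
    ((((l1.const_mul _).sub (l2.mul (tendsto_const_nhds.add hinv))).sub
      ((lit hβ1 0).const_mul _)).sub ((lit hβ1 1).const_mul _)).sub ((lit hβ1 0).const_mul _)
  have hev := Filter.Tendsto.eventually_const_le (u := w * (2 * s1 - s2) - δ) (by linarith) hlim
  filter_upwards [hev, hz, hp, hr, hm, ho, eventually_ge_atTop 3, eventually_ge_atTop |α|]
    with T e1 ez ep er em eo hT3 hTα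
  have hT0 : 0 < T := by linarith
  have hL : 1 ≤ Real.log T := by
    rw [Real.le_log_iff_exp_le (by linarith)]
    linarith [Real.exp_one_lt_d9]
  obtain ⟨-, hcore⟩ := core hRH hW hlip hT0 hTα (SP β T) (dd φ α T) (fun p => Real.log p)
    (L := Real.log T) (by linarith)
  refine le_trans ?_ hcore
  set L := Real.log T with hLdef
  have hL0 : 0 < L := by linarith
  have hTb : 1 ≤ T ^ β := Real.one_le_rpow (by linarith) hβ0.le
  -- first sum
  have f1 : ∑ p ∈ SP β T, ((dd φ α T p).re - (dd φ α T p *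
      cexp ((Real.log p * α : ℝ) * I)).re) * BW J c T (Real.log p) ≤
      -(2 * T * w * (L ^ 2 * A1 T)) + 8 * Cp * L ^ 2 * T ^ β := by
    have g1 : ∀ p ∈ SP β T, ((dd φ α T p).re - (dd φ α T p *
      cexp ((Real.log p * α : ℝ) * I)).re) * BW J c T (Real.log p) ≤
      -(2 * T * w * (Real.log p ^ 2 / p * φ (Real.log p / L) ^ (0 + 1) *
        (1 - Real.cos (α * Real.log p)))) +
      4 * Cp * (aa φ T p * (Real.sqrt p + L)) := by
      intro p hpS
      obtain ⟨q1, q2⟩ := (mem_SP hT0.le).1 hpS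
      have q3 := (abs_le.1 (ep p q1 q2)).2
      rw [dd_diff]
      have c1 := Real.neg_one_le_cos (α * Real.log p)
      have c2 := Real.cos_le_one (α * Real.log p)
      have c3 := aa_nonneg h0 T p
      have c4 : 0 ≤ 2 * (aa φ T p * (1 - Real.cos (α * Real.log p))) := by
        have := mul_nonneg c3 (by linarith : 0 ≤ 1 - Real.cos (α * Real.log p))
        linarith
      have hp0 : (0 : ℝ) < p := by exact_mod_cast q1.pos
      have hs0 : Real.sqrt p ^ 2 = p := Real.sq_sqrt hp0.le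
      calc 2 * (aa φ T p * (1 - Real.cos (α * Real.log p))) * BW J c T (Real.log p) ≤
          2 * (aa φ T p * (1 - Real.cos (α * Real.log p))) *
            (Cp * (Real.sqrt p + L) - T * w * (Real.log p / Real.sqrt p)) :=
            mul_le_mul_of_nonneg_left (by linarith) c4
        _ = -(2 * T * w * (aa φ T p * (Real.log p / Real.sqrt p) *
              (1 - Real.cos (α * Real.log p)))) +
            2 * (1 - Real.cos (α * Real.log p)) * Cp * (aa φ T p * (Real.sqrt p + L)) := by ring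
        _ ≤ -(2 * T * w * (aa φ T p * (Real.log p / Real.sqrt p) *
              (1 - Real.cos (α * Real.log p)))) +
            2 * 2 * Cp * (aa φ T p * (Real.sqrt p + L)) := by
            have : 0 ≤ aa φ T p * (Real.sqrt p + L) := by positivity
            gcongr
            linarith
        _ = _ := by
            have e : aa φ T p * (Real.log p / Real.sqrt p) =
                Real.log p ^ 2 / p * φ (Real.log p / L) ^ (0 + 1) := by
              rw [aa, ← hs0, Real.sqrt_sq (Real.sqrt_nonneg _)]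
              ring
            rw [e]; ring
    refine (Finset.sum_le_sum g1).trans ?_
    rw [Finset.sum_add_distrib, Finset.sum_neg_distrib, ← Finset.mul_sum, ← Finset.mul_sum]
    have g2 := sum_aa_err h1 hβ1.le hT3
    have g3 : L ^ 2 * A1 T = ∑ p ∈ SP β T, Real.log p ^ 2 / p *
      φ (Real.log p / L) ^ (0 + 1) * (1 - Real.cos (α * Real.log p)) := by
      simp only [hA1]
      rw [← mul_assoc, mul_one_div_cancel (by positivity), one_mul]
    rw [← g3]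
    have g4 := mul_le_mul_of_nonneg_left g2 (by positivity : 0 ≤ 4 * Cp)
    linarith
  -- square sum
  have f2 : ∑ p ∈ SP β T, ‖dd φ α T p‖ ^ 2 = 2 * (L ^ 2 * A2 T) := by
    have g3 : L ^ 2 * A2 T = ∑ p ∈ SP β T, Real.log p ^ 2 / p *
      φ (Real.log p / L) ^ (1 + 1) * (1 - Real.cos (α * Real.log p)) := by
      simp only [hA2]
      rw [← mul_assoc, mul_one_div_cancel (by positivity), one_mul]
    rw [g3, Finset.mul_sum]
    refine Finset.sum_congr rfl fun p hpS => ?_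
    obtain ⟨q1, q2⟩ := (mem_SP hT0.le).1 hpS
    have hp0 : (0 : ℝ) < p := by exact_mod_cast q1.pos
    rw [dd_normsq]
    have e : aa φ T p ^ 2 = Real.log p ^ 2 / p * φ (Real.log p / L) ^ (1 + 1) := by
      rw [aa, mul_pow, div_pow, Real.sq_sqrt hp0.le]
    rw [e]
  have hA2nn : 0 ≤ 2 * (L ^ 2 * A2 T) := by
    rw [← f2]; exact Finset.sum_nonneg fun _ _ => by positivity
  have f3 : (∑ p ∈ SP β T, ‖dd φ α T p‖ ^ 2) * BW J c T 0 ≤
      2 * (L ^ 2 * A2 T) * (T * w * L + Cz * T) := by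
    rw [f2]
    refine mul_le_mul_of_nonneg_left ?_ hA2nn
    linarith [(abs_le.1 ez).2]
  have f4 : ∑ p ∈ SP β T, ∑ q ∈ (SP β T).erase p, ‖dd φ α T p‖ * ‖dd φ α T q‖ *
      |BW J c T (Real.log p - Real.log q)| ≤ 4 * Cr * (Co * (L ^ 4 * T ^ β)) := by
    refine le_trans ?_ (mul_le_mul_of_nonneg_left eo (by positivity : 0 ≤ 4 * Cr))
    rw [Finset.mul_sum]
    refine Finset.sum_le_sum fun p hpS => ?_
    rw [Finset.mul_sum]
    refine Finset.sum_le_sum fun q hqS => ?_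
    obtain ⟨q1, q2⟩ := (mem_SP hT0.le).1 hpS
    obtain ⟨q3, q4⟩ := (mem_SP hT0.le).1 (Finset.mem_of_mem_erase hqS)
    have q5 := er p q q1 q3 (Finset.ne_of_mem_erase hqS).symm q2 q4
    have n1 := dd_norm h0 α T p
    have n2 := dd_norm h0 α T q
    have n3 := aa_nonneg h0 T p
    have n4 := aa_nonneg h0 T q
    calc ‖dd φ α T p‖ * ‖dd φ α T q‖ * |BW J c T (Real.log p - Real.log q)| ≤
        (2 * aa φ T p) * (2 * aa φ T q) * (Cr * (Real.sqrt (p / q) + Real.sqrt (q / p) +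
          L / |Real.log p - Real.log q|)) := by gcongr
      _ = _ := by ring
  have f5 : ∑ p ∈ SP β T, ‖dd φ α T p‖ ≤ 4 * L * Real.sqrt (T ^ β) := by
    calc _ ≤ ∑ p ∈ SP β T, 2 * aa φ T p := Finset.sum_le_sum fun p _ => dd_norm h0 α T p
      _ = 2 * ∑ p ∈ SP β T, aa φ T p := by rw [Finset.mul_sum]
      _ ≤ 2 * (2 * L * Real.sqrt (T ^ β)) := by
          have := sum_aa h1 hβ1.le (by linarith : 1 ≤ T)
          gcongr
      _ = _ := by ring
  set K := ∑ p ∈ SP β T, ‖dd φ α T p‖ with hK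
  have hK0 : 0 ≤ K := Finset.sum_nonneg fun _ _ => norm_nonneg _
  have hsq : Real.sqrt (T ^ β) ^ 2 = T ^ β := Real.sq_sqrt (by positivity)
  have hsq1 : Real.sqrt (T ^ β) ≤ T ^ β := by
    have : 1 ≤ Real.sqrt (T ^ β) := by rw [Real.one_le_sqrt]; exact hTb
    nlinarith
  have f6 : K / L + K ^ 2 / (4 * L ^ 2) ≤ 8 * T ^ β := by
    have k1 : K / L ≤ 4 * Real.sqrt (T ^ β) := by
      rw [div_le_iff₀ hL0]; linarith
    have k2 : K ^ 2 / (4 * L ^ 2) ≤ 4 * T ^ β := by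
      rw [div_le_iff₀ (by positivity)]
      calc K ^ 2 ≤ (4 * L * Real.sqrt (T ^ β)) ^ 2 := by gcongr
        _ = 16 * L ^ 2 * (Real.sqrt (T ^ β) ^ 2) := by ring
        _ = _ := by rw [hsq]; ring
    linarith
  have f7 : Cl * (|α| / T) * MM T * (K / L + K ^ 2 / (4 * L ^ 2)) ≤
      Cl * |α| * Cm * L * (8 * T ^ β) := by
    have k1 : 0 ≤ K / L + K ^ 2 / (4 * L ^ 2) := by positivity
    calc _ ≤ Cl * (|α| / T) * (Cm * (T * L)) * (8 * T ^ β) := by
          gcongr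
      _ = _ := by field_simp
  -- collect
  clear_value A1 A2 K w s1 s2 L
  have t1 : -(1 / L) * (-(2 * T * w * (L ^ 2 * A1 T)) + 8 * Cp * L ^ 2 * T ^ β) ≤
      -(1 / L) * (∑ p ∈ SP β T, ((dd φ α T p).re - (dd φ α T p *
      cexp ((Real.log p * α : ℝ) * I)).re) * BW J c T (Real.log p)) := by
    have h9 : 0 ≤ 1 / L := by positivity
    have h10 := mul_le_mul_of_nonneg_left f1 h9
    rw [neg_mul, neg_mul]
    exact neg_le_neg h10
  have t2 : 1 / (4 * L ^ 2) * (2 * ((∑ p ∈ SP β T, ‖dd φ α T p‖ ^ 2) * BW J c T 0) +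
        2 * ∑ p ∈ SP β T, ∑ q ∈ (SP β T).erase p, ‖dd φ α T p‖ * ‖dd φ α T q‖ *
      |BW J c T (Real.log p - Real.log q)|) ≤
      1 / (4 * L ^ 2) * (2 * (2 * (L ^ 2 * A2 T) * (T * w * L + Cz * T)) +
        2 * (4 * Cr * (Co * (L ^ 4 * T ^ β)))) := by gcongr
  have t3 : (w * (2 * s1 - s2) - δ) * (T * L) ≤ (2 * w * A1 T - A2 T * (w + Cz / L) -
      8 * Cp * (T ^ β * L ^ 0 / T) - 2 * Cr * Co * (T ^ β * L ^ 1 / T) -
      8 * Cl * |α| * Cm * (T ^ β * L ^ 0 / T)) * (T * L) := by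
    have : 0 ≤ T * L := by positivity
    gcongr
  have t4 : (2 * w * A1 T - A2 T * (w + Cz / L) -
      8 * Cp * (T ^ β * L ^ 0 / T) - 2 * Cr * Co * (T ^ β * L ^ 1 / T) -
      8 * Cl * |α| * Cm * (T ^ β * L ^ 0 / T)) * (T * L) =
      -(1 / L) * (-(2 * T * w * (L ^ 2 * A1 T)) + 8 * Cp * L ^ 2 * T ^ β) -
      1 / (4 * L ^ 2) * (2 * (2 * (L ^ 2 * A2 T) * (T * w * L + Cz * T)) +
        2 * (4 * Cr * (Co * (L ^ 4 * T ^ β)))) - Cl * |α| * Cm * L * (8 * T ^ β) :=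
    alg T L w (A1 T) (A2 T) Cz Cp Cr Co Cl |α| Cm (T ^ β) hT0.ne' hL0.ne'
  linarith

end Pool.Agent.helper30.LS
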