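import Pool.Agent.helper30.LS.Defs

/-!
# The core inequality for shifted ordinates
-/

noncomputable section

namespace Pool.Agent.helper30.LS

open Complex MeasureTheory Set Filter Topology ArithmeticFunction
open Pool.Agent.helper30.LR
open Pool.Agent.helper18.LS (Wf)

/-- exponential sum with coefficients `d` and frequencies `l` -/
def DS (S : Finset ℕ) (d : ℕ → ℂ) (l : ℕ → ℝ) (t : ℝ) : ℂ :=
  ∑ p ∈ S, d p * cexp ((l p * t : ℝ) * I)

theorem norm_DS (S : Finset ℕ) (d : ℕ → ℂ) (l : ℕ → ℝ) (t : ℝ) :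
    ‖DS S d l t‖ ≤ ∑ p ∈ S, ‖d p‖ := by
  refine (norm_sum_le _ _).trans (le_of_eq (Finset.sum_congr rfl fun p _ => ?_))
  rw [norm_mul, Complex.norm_exp_ofReal_mul_I, mul_one]

theorem sum_re (hRH : RiemannHypothesis) (J : ℕ) (c : ℕ → ℝ) {T : ℝ} (hT : 0 < T)
    (S : Finset ℕ) (d : ℕ → ℂ) (l : ℕ → ℝ) :
    HasSum (fun t : ℝ => (mult t : ℝ) * (Wf J c (t / T) * (DS S d l t).re))
      (∑ p ∈ S, (d p).re * BW J c T (l p)) := by
  have h : HasSum (fun t : ℝ => ∑ p ∈ S, d p * ((((mult t : ℝ) * Wf J c (t / T) : ℝ) : ℂ) *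
      cexp ((l p * t : ℝ) * I))) (∑ p ∈ S, d p * (BW J c T (l p) : ℂ)) :=
    hasSum_sum fun p _ => (exp_sum hRH J c hT (l p)).mul_left _
  have h2 := Complex.hasSum_re h
  have e : (∑ p ∈ S, d p * (BW J c T (l p) : ℂ)).re = ∑ p ∈ S, (d p).re * BW J c T (l p) := by
    rw [Complex.re_sum]
    refine Finset.sum_congr rfl fun p _ => ?_
    rw [Complex.re_mul_ofReal]
  rw [e] at h2
  refine hcongr h2 fun t => ?_
  have e2 : ∑ p ∈ S, d p * ((((mult t : ℝ) * Wf J c (t / T) : ℝ) : ℂ) *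
      cexp ((l p * t : ℝ) * I)) = (((mult t : ℝ) * Wf J c (t / T) : ℝ) : ℂ) * DS S d l t := by
    rw [DS, Finset.mul_sum]
    exact Finset.sum_congr rfl fun p _ => by ring
  rw [e2, Complex.re_ofReal_mul]; ring

theorem sum_sq (hRH : RiemannHypothesis) (J : ℕ) (c : ℕ → ℝ) {T : ℝ} (hT : 0 < T)
    (S : Finset ℕ) (d : ℕ → ℂ) (l : ℕ → ℝ) :
    HasSum (fun t : ℝ => (mult t : ℝ) * (Wf J c (t / T) * ‖DS S d l t‖ ^ 2))
      (∑ p ∈ S, ∑ q ∈ S, (d p * (starRingEnd ℂ) (d q)).re * BW J c T (l p - l q)) := by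
  have h : HasSum (fun t : ℝ => ∑ p ∈ S, ∑ q ∈ S, (d p * (starRingEnd ℂ) (d q)) *
      ((((mult t : ℝ) * Wf J c (t / T) : ℝ) : ℂ) * cexp (((l p - l q) * t : ℝ) * I)))
      (∑ p ∈ S, ∑ q ∈ S, (d p * (starRingEnd ℂ) (d q)) * (BW J c T (l p - l q) : ℂ)) :=
    hasSum_sum fun p _ => hasSum_sum fun q _ => (exp_sum hRH J c hT _).mul_left _
  have h2 := Complex.hasSum_re h
  have e : (∑ p ∈ S, ∑ q ∈ S, (d p * (starRingEnd ℂ) (d q)) * (BW J c T (l p - l q) : ℂ)).re =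
      ∑ p ∈ S, ∑ q ∈ S, (d p * (starRingEnd ℂ) (d q)).re * BW J c T (l p - l q) := by
    rw [Complex.re_sum]
    refine Finset.sum_congr rfl fun p _ => ?_
    rw [Complex.re_sum]
    refine Finset.sum_congr rfl fun q _ => ?_
    rw [Complex.re_mul_ofReal]
  rw [e] at h2
  refine hcongr h2 fun t => ?_
  have e2 : ∑ p ∈ S, ∑ q ∈ S, (d p * (starRingEnd ℂ) (d q)) *
      ((((mult t : ℝ) * Wf J c (t / T) : ℝ) : ℂ) * cexp (((l p - l q) * t : ℝ) * I)) =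
      (((mult t : ℝ) * Wf J c (t / T) : ℝ) : ℂ) *
        (DS S d l t * (starRingEnd ℂ) (DS S d l t)) := by
    rw [DS, map_sum, Finset.sum_mul_sum, Finset.mul_sum]
    refine Finset.sum_congr rfl fun p _ => ?_
    rw [Finset.mul_sum]
    refine Finset.sum_congr rfl fun q _ => ?_
    have e3 : cexp (((l p - l q) * t : ℝ) * I) = cexp ((l p * t : ℝ) * I) *
        (starRingEnd ℂ) (cexp ((l q * t : ℝ) * I)) := by
      rw [← Complex.exp_conj, ← Complex.exp_add]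
      congr 1
      simp only [map_mul, Complex.conj_ofReal, Complex.conj_I]
      push_cast
      ring
    rw [e3, map_mul]; ring
  rw [e2, Complex.mul_conj, ← Complex.ofReal_mul, Complex.ofReal_re, Complex.normSq_eq_norm_sq]
  ring

/-- bound for the square sum -/
theorem sq_le (J : ℕ) (c : ℕ → ℝ) {T : ℝ} (S : Finset ℕ) (d : ℕ → ℂ) (l : ℕ → ℝ) :
    ∑ p ∈ S, ∑ q ∈ S, (d p * (starRingEnd ℂ) (d q)).re * BW J c T (l p - l q) ≤
      (∑ p ∈ S, ‖d p‖ ^ 2) * BW J c T 0 +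
      ∑ p ∈ S, ∑ q ∈ S.erase p, ‖d p‖ * ‖d q‖ * |BW J c T (l p - l q)| := by
  rw [Finset.sum_mul, ← Finset.sum_add_distrib]
  refine Finset.sum_le_sum fun p hp => ?_
  rw [← Finset.add_sum_erase S _ hp, sub_self, Complex.mul_conj, Complex.ofReal_re,
    Complex.normSq_eq_norm_sq]
  refine add_le_add le_rfl (Finset.sum_le_sum fun q _ => ?_)
  refine (le_abs_self _).trans ?_
  rw [abs_mul]
  refine mul_le_mul_of_nonneg_right ?_ (abs_nonneg _)
  refine (Complex.abs_re_le_norm _).trans (le_of_eq ?_)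
  rw [norm_mul, Complex.norm_conj]

/-- a shifted exponential sum -/
theorem DS_shift (S : Finset ℕ) (d : ℕ → ℂ) (l : ℕ → ℝ) (α t : ℝ) :
    DS S d l (t + α) = DS S (fun p => d p * cexp ((l p * α : ℝ) * I)) l t := by
  unfold DS
  refine Finset.sum_congr rfl fun p _ => ?_
  rw [mul_assoc, ← Complex.exp_add]
  congr 2
  push_cast; ring

/-- total mass with a wide Gaussian -/
def MM (T : ℝ) : ℝ := ∑' t : ℝ, (mult t : ℝ) * Real.exp (-(1 / 4 * (t / T) ^ 2))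

theorem MM_nonneg (T : ℝ) : 0 ≤ MM T := tsum_nonneg fun _ => by positivity

/-- Lipschitz hypothesis on the weight -/
def Lip (J : ℕ) (c : ℕ → ℝ) (C : ℝ) : Prop := ∀ u h : ℝ, |h| ≤ 1 →
    |Wf J c (u + h) - Wf J c u| ≤ C * |h| * Real.exp (-(u ^ 2 / 4))

theorem lip_diff {J : ℕ} {c : ℕ → ℝ} {C : ℝ} (hl : Lip J c C) {T : ℝ} (hT : 0 < T) {α : ℝ}
    (hα : |α| ≤ T) (s : ℝ) :
    |Wf J c ((s + α) / T) - Wf J c (s / T)| ≤
      C * (|α| / T) * Real.exp (-(1 / 4 * (s / T) ^ 2)) := by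
  have h1 : |α / T| ≤ 1 := by
    rw [abs_div, abs_of_pos hT, div_le_one hT]; exact hα
  have h := hl (s / T) (α / T) h1
  rw [← add_div, abs_div, abs_of_pos hT] at h
  refine h.trans (le_of_eq ?_)
  congr 2; ring

theorem shift_sum (hRH : RiemannHypothesis) {J : ℕ} {c : ℕ → ℝ} {C : ℝ} (hl : Lip J c C)
    {T : ℝ} (hT : 0 < T) {α : ℝ} (hα : |α| ≤ T) {G : ℝ → ℝ} {K : ℝ} (hG : ∀ t, |G t| ≤ K) :
    (Summable fun t : ℝ => (mult (t - α) : ℝ) * (Wf J c (t / T) * G t)) ∧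
    |∑' t : ℝ, (mult (t - α) : ℝ) * (Wf J c (t / T) * G t) -
      ∑' s : ℝ, (mult s : ℝ) * (Wf J c (s / T) * G (s + α))| ≤ C * (|α| / T) * MM T * K := by
  have hs1 := summable_WG hRH J c hT (fun s => G (s + α)) (K := K) (fun s => hG _)
  have hb : ∀ s : ℝ, ‖(mult s : ℝ) * ((Wf J c ((s + α) / T) - Wf J c (s / T)) * G (s + α))‖ ≤
      C * (|α| / T) * K * ((mult s : ℝ) * Real.exp (-(1 / 4 * (s / T) ^ 2))) := by
    intro s
    rw [Real.norm_eq_abs, abs_mul, abs_mul, Nat.abs_cast]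
    have h1 := lip_diff hl hT hα s
    have h2 := hG (s + α)
    calc (mult s : ℝ) * (|Wf J c ((s + α) / T) - Wf J c (s / T)| * |G (s + α)|) ≤
        (mult s : ℝ) * ((C * (|α| / T) * Real.exp (-(1 / 4 * (s / T) ^ 2))) * K) := by
          have := (abs_nonneg _).trans h1
          gcongr
      _ = _ := by ring
  have hms := mass_sum hRH hT (1 / 4) (by norm_num)
  have hs2 : Summable fun s : ℝ =>
      (mult s : ℝ) * ((Wf J c ((s + α) / T) - Wf J c (s / T)) * G (s + α)) :=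
    Summable.of_norm_bounded (hms.mul_left _) hb
  have hs3 : Summable fun s : ℝ => (mult s : ℝ) * (Wf J c ((s + α) / T) * G (s + α)) := by
    refine (summable_congr fun s => ?_).mp (hs1.add hs2)
    ring
  have e : (fun s : ℝ => (mult s : ℝ) * (Wf J c ((s + α) / T) * G (s + α))) =
      (fun t : ℝ => (mult (t - α) : ℝ) * (Wf J c (t / T) * G t)) ∘ (Equiv.addRight α) := by
    funext s
    simp
  have hs4 : Summable fun t : ℝ => (mult (t - α) : ℝ) * (Wf J c (t / T) * G t) := by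
    rw [e] at hs3
    exact (Equiv.addRight α).summable_iff.mp hs3
  refine ⟨hs4, ?_⟩
  have e2 : ∑' t : ℝ, (mult (t - α) : ℝ) * (Wf J c (t / T) * G t) =
      ∑' s : ℝ, (mult s : ℝ) * (Wf J c ((s + α) / T) * G (s + α)) := by
    rw [← (Equiv.addRight α).tsum_eq]
    exact tsum_congr fun s => by simp
  rw [e2, ← hs3.tsum_sub hs1]
  have e3 : ∑' s : ℝ, ((mult s : ℝ) * (Wf J c ((s + α) / T) * G (s + α)) -
      (mult s : ℝ) * (Wf J c (s / T) * G (s + α))) =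
      ∑' s : ℝ, (mult s : ℝ) * ((Wf J c ((s + α) / T) - Wf J c (s / T)) * G (s + α)) :=
    tsum_congr fun s => by ring
  rw [e3]
  have h5 := tsum_of_norm_bounded (hms.mul_left (C * (|α| / T) * K)).hasSum hb
  rw [tsum_mul_left] at h5
  rw [← Real.norm_eq_abs]
  refine h5.trans (le_of_eq ?_)
  rw [MM]; ring

theorem pointwise_ineq {w x y L : ℝ} {D : ℂ} (hw : 0 ≤ w) (hx : 0 ≤ x) (hy : 0 ≤ y)
    (hL : 0 < L) :
    -(1 / L) * (x * (w * D.re) - y * (w * D.re)) -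
      1 / (4 * L ^ 2) * (x * (w * ‖D‖ ^ 2) + y * (w * ‖D‖ ^ 2)) ≤ w * |x - y| := by
  have h1 : |D.re| ≤ ‖D‖ := Complex.abs_re_le_norm D
  have h2 : -((x - y) * D.re) ≤ |x - y| * ‖D‖ := by
    calc -((x - y) * D.re) ≤ |(x - y) * D.re| := neg_le_abs _
      _ = |x - y| * |D.re| := abs_mul _ _
      _ ≤ _ := by gcongr
  have h3 : |x - y| ≤ x + y := by
    rw [abs_le]; constructor <;> linarith
  have h4 : ‖D‖ / L ≤ 1 + ‖D‖ ^ 2 / (4 * L ^ 2) := by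
    have : 0 ≤ (1 - ‖D‖ / (2 * L)) ^ 2 := sq_nonneg _
    have e : (1 - ‖D‖ / (2 * L)) ^ 2 = 1 + ‖D‖ ^ 2 / (4 * L ^ 2) - ‖D‖ / L := by
      field_simp; ring
    linarith
  have h5 : -((x - y) * D.re) / L ≤ |x - y| + (x + y) * (‖D‖ ^ 2 / (4 * L ^ 2)) := by
    calc -((x - y) * D.re) / L ≤ (|x - y| * ‖D‖) / L := by gcongr
      _ = |x - y| * (‖D‖ / L) := by ring
      _ ≤ |x - y| * (1 + ‖D‖ ^ 2 / (4 * L ^ 2)) := by gcongr
      _ = |x - y| + |x - y| * (‖D‖ ^ 2 / (4 * L ^ 2)) := by ring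
      _ ≤ _ := by gcongr
  have h6 := mul_le_mul_of_nonneg_left h5 hw
  have e1 : -(1 / L) * (x * (w * D.re) - y * (w * D.re)) -
      1 / (4 * L ^ 2) * (x * (w * ‖D‖ ^ 2) + y * (w * ‖D‖ ^ 2)) =
      w * (-((x - y) * D.re) / L) - w * ((x + y) * (‖D‖ ^ 2 / (4 * L ^ 2))) := by
    field_simp
  rw [e1]
  rw [mul_add] at h6
  linarith

theorem core (hRH : RiemannHypothesis) {J : ℕ} {c : ℕ → ℝ} (hW : ∀ u, 0 ≤ Wf J c u) {C : ℝ}
    (hl : Lip J c C) {T : ℝ} (hT : 0 < T) {α : ℝ} (hα : |α| ≤ T) (S : Finset ℕ) (d : ℕ → ℂ)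
    (l : ℕ → ℝ) {L : ℝ} (hL : 0 < L) :
    (Summable fun t : ℝ => Wf J c (t / T) * |(mult t : ℝ) - mult (t - α)|) ∧
    -(1 / L) * (∑ p ∈ S, ((d p).re - (d p * cexp ((l p * α : ℝ) * I)).re) * BW J c T (l p)) -
      1 / (4 * L ^ 2) * (2 * ((∑ p ∈ S, ‖d p‖ ^ 2) * BW J c T 0) +
        2 * ∑ p ∈ S, ∑ q ∈ S.erase p, ‖d p‖ * ‖d q‖ * |BW J c T (l p - l q)|) -
      C * (|α| / T) * MM T * ((∑ p ∈ S, ‖d p‖) / L + (∑ p ∈ S, ‖d p‖) ^ 2 / (4 * L ^ 2)) ≤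
    ∑' t : ℝ, Wf J c (t / T) * |(mult t : ℝ) - mult (t - α)| := by
  set K := ∑ p ∈ S, ‖d p‖ with hK
  have hK0 : 0 ≤ K := Finset.sum_nonneg fun _ _ => norm_nonneg _
  set D := DS S d l with hD
  have hDb : ∀ t, ‖D t‖ ≤ K := norm_DS S d l
  have hG1 : ∀ t, |(D t).re| ≤ K := fun t => (Complex.abs_re_le_norm _).trans (hDb t)
  have hG2 : ∀ t, |‖D t‖ ^ 2| ≤ K ^ 2 := fun t => by
    rw [abs_of_nonneg (by positivity)]
    have := hDb t
    gcongr
  have hG0 : ∀ t : ℝ, |(fun _ => (1 : ℝ)) t| ≤ 1 := fun t => by simp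
  -- the four sums
  have a1 := sum_re hRH J c hT S d l
  have a2 := sum_sq hRH J c hT S d l
  obtain ⟨s1, b1⟩ := shift_sum hRH hl hT hα hG1
  obtain ⟨s2, b2⟩ := shift_sum hRH hl hT hα hG2
  have hs0 := summable_WG hRH J c hT (fun _ => 1) hG0
  obtain ⟨s0, -⟩ := shift_sum hRH hl hT hα hG0
  have hs : Summable fun t : ℝ => Wf J c (t / T) * |(mult t : ℝ) - mult (t - α)| := by
    refine Summable.of_norm_bounded (hs0.add s0) fun t => ?_
    rw [Real.norm_eq_abs, abs_mul, abs_of_nonneg (hW _), abs_abs]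
    have h3 : |(mult t : ℝ) - mult (t - α)| ≤ mult t + mult (t - α) := by
      rw [abs_le]
      have h1 : (0 : ℝ) ≤ mult t := Nat.cast_nonneg _
      have h2 : (0 : ℝ) ≤ mult (t - α) := Nat.cast_nonneg _
      constructor <;> linarith
    have := mul_le_mul_of_nonneg_left h3 (hW (t / T))
    linarith
  refine ⟨hs, ?_⟩
  have hDs : ∀ t, D (t + α) = DS S (fun p => d p * cexp ((l p * α : ℝ) * I)) l t :=
    fun t => DS_shift S d l α t
  have a3 := sum_re hRH J c hT S (fun p => d p * cexp ((l p * α : ℝ) * I)) l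
  have a4 := sum_sq hRH J c hT S (fun p => d p * cexp ((l p * α : ℝ) * I)) l
  have c1 : ∑' s : ℝ, (mult s : ℝ) * (Wf J c (s / T) * (D (s + α)).re) =
      ∑ p ∈ S, (d p * cexp ((l p * α : ℝ) * I)).re * BW J c T (l p) := by
    rw [← a3.tsum_eq]
    exact tsum_congr fun t => by rw [hDs]
  have c2 : ∑' s : ℝ, (mult s : ℝ) * (Wf J c (s / T) * ‖D (s + α)‖ ^ 2) ≤
      (∑ p ∈ S, ‖d p‖ ^ 2) * BW J c T 0 +
      ∑ p ∈ S, ∑ q ∈ S.erase p, ‖d p‖ * ‖d q‖ * |BW J c T (l p - l q)| := by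
    have e : ∑' s : ℝ, (mult s : ℝ) * (Wf J c (s / T) * ‖D (s + α)‖ ^ 2) =
        ∑' s : ℝ, (mult s : ℝ) * (Wf J c (s / T) *
          ‖DS S (fun p => d p * cexp ((l p * α : ℝ) * I)) l s‖ ^ 2) :=
      tsum_congr fun t => by rw [hDs]
    rw [e, a4.tsum_eq]
    refine (sq_le J c S _ l).trans (le_of_eq ?_)
    simp only [norm_mul, Complex.norm_exp_ofReal_mul_I, mul_one]
  have c3 := sq_le J c (T := T) S d l
  rw [← a2.tsum_eq] at c3
  rw [c1] at b1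
  -- pointwise inequality, summed
  have p1 : Summable fun t : ℝ => (mult t : ℝ) * (Wf J c (t / T) * (D t).re) -
      (mult (t - α) : ℝ) * (Wf J c (t / T) * (D t).re) := a1.summable.sub s1
  have p2 : Summable fun t : ℝ => (mult t : ℝ) * (Wf J c (t / T) * ‖D t‖ ^ 2) +
      (mult (t - α) : ℝ) * (Wf J c (t / T) * ‖D t‖ ^ 2) := a2.summable.add s2
  have hle : ∑' t : ℝ, (-(1 / L) * ((mult t : ℝ) * (Wf J c (t / T) * (D t).re) -
      (mult (t - α) : ℝ) * (Wf J c (t / T) * (D t).re)) -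
      1 / (4 * L ^ 2) * ((mult t : ℝ) * (Wf J c (t / T) * ‖D t‖ ^ 2) +
      (mult (t - α) : ℝ) * (Wf J c (t / T) * ‖D t‖ ^ 2))) ≤
      ∑' t : ℝ, Wf J c (t / T) * |(mult t : ℝ) - mult (t - α)| :=
    ((p1.mul_left _).sub (p2.mul_left _)).tsum_le_tsum
      (fun t => pointwise_ineq (hW _) (Nat.cast_nonneg _) (Nat.cast_nonneg _) hL) hs
  refine le_trans ?_ hle
  rw [(p1.mul_left _).tsum_sub (p2.mul_left _), tsum_mul_left, tsum_mul_left,
    a1.summable.tsum_sub s1, a2.summable.tsum_add s2, a1.tsum_eq]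
  have e5 : ∑ p ∈ S, ((d p).re - (d p * cexp ((l p * α : ℝ) * I)).re) * BW J c T (l p) =
      ∑ p ∈ S, (d p).re * BW J c T (l p) -
      ∑ p ∈ S, (d p * cexp ((l p * α : ℝ) * I)).re * BW J c T (l p) := by
    rw [← Finset.sum_sub_distrib]
    exact Finset.sum_congr rfl fun p _ => by ring
  rw [e5]
  set A := ∑ p ∈ S, (d p).re * BW J c T (l p)
  set A' := ∑ p ∈ S, (d p * cexp ((l p * α : ℝ) * I)).re * BW J c T (l p)
  set X1 := ∑' t : ℝ, (mult (t - α) : ℝ) * (Wf J c (t / T) * (D t).re)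
  set X2 := ∑' t : ℝ, (mult (t - α) : ℝ) * (Wf J c (t / T) * ‖D t‖ ^ 2)
  set X3 := ∑' t : ℝ, (mult t : ℝ) * (Wf J c (t / T) * ‖D t‖ ^ 2)
  set E := C * (|α| / T) * MM T
  set B := (∑ p ∈ S, ‖d p‖ ^ 2) * BW J c T 0
  set R := ∑ p ∈ S, ∑ q ∈ S.erase p, ‖d p‖ * ‖d q‖ * |BW J c T (l p - l q)|
  have d1 := abs_le.1 b1
  have d2 := abs_le.1 b2
  have k1 : -(1 / L) * (A - A') - E * K / L ≤ -(1 / L) * (A - X1) := by
    have : 1 / L * (X1 - A') ≥ 1 / L * (-(E * K)) := by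
      have := d1.1
      gcongr
    have e : E * K / L = 1 / L * (E * K) := by ring
    rw [e]
    nlinarith
  have k2 : X3 + X2 ≤ 2 * B + 2 * R + E * K ^ 2 := by linarith [d2.2]
  have k3 : 1 / (4 * L ^ 2) * (X3 + X2) ≤ 1 / (4 * L ^ 2) * (2 * B + 2 * R + E * K ^ 2) := by
    gcongr
  have e6 : E * (K / L + K ^ 2 / (4 * L ^ 2)) = E * K / L + 1 / (4 * L ^ 2) * (E * K ^ 2) := by
    ring
  rw [e6]
  have e7 : 1 / (4 * L ^ 2) * (2 * B + 2 * R + E * K ^ 2) =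
      1 / (4 * L ^ 2) * (2 * B + 2 * R) + 1 / (4 * L ^ 2) * (E * K ^ 2) := by ring
  linarith

end Pool.Agent.helper30.LS
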