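import Pool.Agent.helper30.LR.Final
import Pool.Agent.helper43.LS.D1
import Pool.Agent.helper29.LS.Val
import Pool.Agent.helper18.LS.Weights
import Pool.Agent.helper18.LS.Karamata
import Pool.Agent.helper19.LS.Dbl

/-!
# Shifts of ordinates: definitions (MP_0ec205_nt, third round)
-/

noncomputable section

namespace Pool.Agent.helper30.LS

open Complex MeasureTheory Set Filter Topology ArithmeticFunction
open Pool.Agent.helper30.LR
open Pool.Agent.helper18.LS (Wf)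

/-- `∑_γ m(γ) W(γ/T) cos(xγ)` -/
def BW (J : ℕ) (c : ℕ → ℝ) (T x : ℝ) : ℝ :=
  ∑ j ∈ Finset.range J, c j * BB (T / Real.sqrt ((j : ℝ) + 1)) x

theorem hcongr {E : Type*} [AddCommMonoid E] [TopologicalSpace E] {f g : ℝ → E} {a : E}
    (h : HasSum f a) (e : ∀ t, f t = g t) : HasSum g a := by
  have : f = g := funext e
  rwa [← this]

theorem hasSum_BB (hRH : RiemannHypothesis) {H : ℝ} (hH : 0 < H) (x : ℝ) :
    HasSum (fun t : ℝ => (mult t : ℝ) * (Real.exp (-(t ^ 2 / H ^ 2)) * Real.cos (x * t)))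
      (BB H x) := (explicit hRH hH x).summable.hasSum

theorem hasSum_BW (hRH : RiemannHypothesis) (J : ℕ) (c : ℕ → ℝ) {T : ℝ} (hT : 0 < T) (x : ℝ) :
    HasSum (fun t : ℝ => (mult t : ℝ) * (Wf J c (t / T) * Real.cos (x * t))) (BW J c T x) := by
  have h : HasSum (fun t : ℝ => ∑ j ∈ Finset.range J, c j * ((mult t : ℝ) *
      (Real.exp (-(t ^ 2 / (T / Real.sqrt ((j : ℝ) + 1)) ^ 2)) * Real.cos (x * t))))
      (BW J c T x) := hasSum_sum fun j _ => (hasSum_BB hRH (by positivity) x).mul_left _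
  refine hcongr h fun t => ?_
  rw [Wf, Finset.sum_mul, Finset.mul_sum]
  refine Finset.sum_congr rfl fun j _ => ?_
  have e : t ^ 2 / (T / Real.sqrt ((j : ℝ) + 1)) ^ 2 = ((j : ℝ) + 1) * (t / T) ^ 2 := by
    rw [div_pow, div_pow, Real.sq_sqrt (by positivity)]
    field_simp
  rw [e]; ring

/-- size of the weight -/
def Wn (J : ℕ) (c : ℕ → ℝ) : ℝ := ∑ j ∈ Finset.range J, |c j|

theorem Wn_nonneg (J : ℕ) (c : ℕ → ℝ) : 0 ≤ Wn J c := Finset.sum_nonneg fun _ _ => abs_nonneg _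

theorem Wf_abs (J : ℕ) (c : ℕ → ℝ) (u : ℝ) : |Wf J c u| ≤ Wn J c * Real.exp (-u ^ 2) := by
  rw [Wf, Wn, Finset.sum_mul]
  refine (Finset.abs_sum_le_sum_abs _ _).trans (Finset.sum_le_sum fun j _ => ?_)
  rw [abs_mul, Real.abs_exp]
  have : -(((j : ℝ) + 1) * u ^ 2) ≤ -u ^ 2 := by
    have := mul_nonneg (Nat.cast_nonneg j : (0 : ℝ) ≤ j) (sq_nonneg u)
    linarith
  gcongr

theorem Wf_continuous (J : ℕ) (c : ℕ → ℝ) : Continuous (Wf J c) := by
  unfold Wf; fun_prop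

theorem Wf_even (J : ℕ) (c : ℕ → ℝ) (u : ℝ) : Wf J c (-u) = Wf J c u := by
  simp [Wf]

theorem mass_sum (hRH : RiemannHypothesis) {T : ℝ} (hT : 0 < T) (k : ℝ) (hk : 0 < k) :
    Summable fun t : ℝ => (mult t : ℝ) * Real.exp (-(k * (t / T) ^ 2)) := by
  have := mass_summable hRH (H := T / Real.sqrt k) (by positivity)
  refine (summable_congr fun t => ?_).mp this
  congr 2
  rw [div_pow, div_pow, Real.sq_sqrt hk.le]
  field_simp

/-- absolute convergence with a bounded factor -/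
theorem summable_WG (hRH : RiemannHypothesis) (J : ℕ) (c : ℕ → ℝ) {T : ℝ} (hT : 0 < T)
    (G : ℝ → ℝ) {K : ℝ} (hG : ∀ t, |G t| ≤ K) :
    Summable fun t : ℝ => (mult t : ℝ) * (Wf J c (t / T) * G t) := by
  refine Summable.of_norm_bounded
    (((mass_sum hRH hT 1 one_pos).mul_left (Wn J c * K))) fun t => ?_
  rw [Real.norm_eq_abs, abs_mul, abs_mul, Nat.abs_cast]
  have h1 := Wf_abs J c (t / T)
  have h2 := hG t
  have h3 := Wn_nonneg J c
  calc (mult t : ℝ) * (|Wf J c (t / T)| * |G t|) ≤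
      (mult t : ℝ) * ((Wn J c * Real.exp (-(t / T) ^ 2)) * K) := by gcongr
    _ = _ := by rw [one_mul]; ring

theorem sin_sum (hRH : RiemannHypothesis) (J : ℕ) (c : ℕ → ℝ) {T : ℝ} (hT : 0 < T) (x : ℝ) :
    HasSum (fun t : ℝ => (mult t : ℝ) * (Wf J c (t / T) * Real.sin (x * t))) 0 := by
  have hs := summable_WG hRH J c hT (fun t => Real.sin (x * t)) (K := 1)
    (fun t => Real.abs_sin_le_one _)
  have h := (Equiv.neg ℝ).tsum_eq
    (fun t : ℝ => (mult t : ℝ) * (Wf J c (t / T) * Real.sin (x * t)))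
  have h2 : ∑' t : ℝ, (fun t : ℝ => (mult t : ℝ) * (Wf J c (t / T) * Real.sin (x * t)))
      (Equiv.neg ℝ t) = - ∑' t : ℝ, (mult t : ℝ) * (Wf J c (t / T) * Real.sin (x * t)) := by
    rw [← tsum_neg]
    refine tsum_congr fun t => ?_
    simp only [Equiv.neg_apply]
    rw [mult_neg, neg_div, Wf_even, mul_neg, Real.sin_neg]; ring
  have h3 : ∑' t : ℝ, (mult t : ℝ) * (Wf J c (t / T) * Real.sin (x * t)) = 0 := by
    rw [h2] at h; linarith
  rw [← h3]; exact hs.hasSum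

theorem exp_sum (hRH : RiemannHypothesis) (J : ℕ) (c : ℕ → ℝ) {T : ℝ} (hT : 0 < T) (x : ℝ) :
    HasSum (fun t : ℝ => (((mult t : ℝ) * Wf J c (t / T) : ℝ) : ℂ) * cexp ((x * t : ℝ) * I))
      (BW J c T x : ℂ) := by
  have h1 := Complex.hasSum_ofReal.mpr (hasSum_BW hRH J c hT x)
  have h2 := (Complex.hasSum_ofReal.mpr (sin_sum hRH J c hT x)).mul_right I
  have h3 := h1.add h2
  rw [Complex.ofReal_zero, zero_mul, add_zero] at h3
  refine hcongr h3 fun t => ?_
  rw [Complex.exp_mul_I]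
  push_cast
  ring

end Pool.Agent.helper30.LS
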