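import Pool.Agent.helper30.LS.Vals

/-!
# The prime sums
-/

noncomputable section

namespace Pool.Agent.helper30.LS

open Complex MeasureTheory Set Filter Topology ArithmeticFunction
open Pool.Agent.helper30.LR
open Pool.Agent.helper18.LS (Wf)

/-- primes up to `T^β` -/
def SP (β T : ℝ) : Finset ℕ := (Finset.Icc 1 ⌊T ^ β⌋₊).filter Nat.Prime

theorem mem_SP {β T : ℝ} (hT : 0 ≤ T) {p : ℕ} : p ∈ SP β T ↔ p.Prime ∧ (p : ℝ) ≤ T ^ β := by
  unfold SP
  rw [Finset.mem_filter, Finset.mem_Icc, Nat.le_floor_iff (Real.rpow_nonneg hT β)]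
  constructor
  · rintro ⟨⟨-, h⟩, hp⟩; exact ⟨hp, h⟩
  · rintro ⟨hp, h⟩; exact ⟨⟨hp.one_le, h⟩, hp⟩

/-- coefficients -/
def aa (φ : ℝ → ℝ) (T : ℝ) (p : ℕ) : ℝ :=
  Real.log p / Real.sqrt p * φ (Real.log p / Real.log T)

theorem aa_nonneg {φ : ℝ → ℝ} (h0 : ∀ u, 0 ≤ φ u) (T : ℝ) (p : ℕ) : 0 ≤ aa φ T p :=
  mul_nonneg (div_nonneg (Real.log_natCast_nonneg p) (Real.sqrt_nonneg _)) (h0 _)

theorem aa_le {φ : ℝ → ℝ} (h1 : ∀ u, φ u ≤ 1) (T : ℝ) (p : ℕ) :
    aa φ T p ≤ Real.log p / Real.sqrt p :=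
  mul_le_of_le_one_right (div_nonneg (Real.log_natCast_nonneg p) (Real.sqrt_nonneg _)) (h1 _)

theorem log_le_SP {β T : ℝ} (hβ : β ≤ 1) (hT : 1 ≤ T) {p : ℕ} (hp : p ∈ SP β T) :
    Real.log p ≤ Real.log T := by
  obtain ⟨h1, h2⟩ := (mem_SP (by linarith)).1 hp
  refine Real.log_le_log (by exact_mod_cast h1.pos) (h2.trans ?_)
  calc T ^ β ≤ T ^ (1 : ℝ) := Real.rpow_le_rpow_of_exponent_le hT hβ
    _ = T := Real.rpow_one T

theorem prime_lim (φ : ℝ → ℝ) (hφ : Continuous φ) {β : ℝ} (hb : ∀ u, β ≤ u → φ u = 0)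
    {α : ℝ} (hα : α ≠ 0) (k : ℕ) :
    Tendsto (fun T : ℝ => 1 / Real.log T ^ 2 * ∑ p ∈ SP β T, Real.log p ^ 2 / p *
      φ (Real.log p / Real.log T) ^ (k + 1) * (1 - Real.cos (α * Real.log p))) atTop
      (𝓝 (∫ u in Ioi (0 : ℝ), u * φ u ^ (k + 1))) := by
  set G : ℝ → ℝ := fun u => u * φ u ^ (k + 1) with hG
  have hGc : Continuous G := by fun_prop
  have hGb : ∀ u, β ≤ u → G u = 0 := fun u hu => by rw [hG]; simp [hb u hu]
  have h0 := Pool.Agent.helper18.LS.prime_sum 0 G hGc β hGb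
  have h1 := Pool.Agent.helper18.LS.prime_sum α G hGc β hGb
  rw [if_pos rfl] at h0
  rw [if_neg hα] at h1
  have h2 := (h0.comp Real.tendsto_log_atTop).sub (h1.comp Real.tendsto_log_atTop)
  rw [sub_zero] at h2
  refine h2.congr' ?_
  filter_upwards [eventually_gt_atTop 1] with T hT
  have hL : 0 < Real.log T := Real.log_pos hT
  simp only [Function.comp]
  have hfin : ∀ γ : ℝ, ∑' p : ℕ, (if p.Prime then Real.log p / p * G (Real.log p / Real.log T) *
      Real.cos (γ * Real.log p) else 0) = ∑ p ∈ SP β T, Real.log p / p *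
      G (Real.log p / Real.log T) * Real.cos (γ * Real.log p) := by
    intro γ
    rw [tsum_eq_sum (s := SP β T)]
    · refine Finset.sum_congr rfl fun p hp => ?_
      rw [if_pos ((mem_SP (by linarith)).1 hp).1]
    · intro p hp
      split_ifs with hpp
      · have h3 : ¬ (p : ℝ) ≤ T ^ β := fun h => hp ((mem_SP (by linarith)).2 ⟨hpp, h⟩)
        have h4 : β ≤ Real.log p / Real.log T := by
          rw [le_div_iff₀ hL, ← Real.log_rpow (by linarith)]
          exact Real.log_le_log (by positivity) (by linarith)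
        rw [hGb _ h4]; simp
      · rfl
  rw [hfin 0, hfin α, ← mul_sub, ← Finset.sum_sub_distrib, Finset.mul_sum, Finset.mul_sum]
  refine Finset.sum_congr rfl fun p _ => ?_
  simp only [zero_mul, Real.cos_zero, hG]
  field_simp

theorem lit {β : ℝ} (hβ : β < 1) (k : ℕ) :
    Tendsto (fun T : ℝ => T ^ β * Real.log T ^ k / T) atTop (𝓝 0) := by
  have h := isLittleO_log_rpow_rpow_atTop (s := 1 - β) (k : ℝ) (by linarith)
  have h2 := h.tendsto_div_nhds_zero
  refine h2.congr' ?_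
  filter_upwards [eventually_gt_atTop 0] with T hT
  rw [Real.rpow_natCast, Real.rpow_sub hT, Real.rpow_one]
  field_simp

theorem sum_inv_sqrt (N : ℕ) : ∑ n ∈ Finset.Icc 1 N, 1 / Real.sqrt n ≤ 2 * Real.sqrt N := by
  induction N with
  | zero => simp
  | succ N ih =>
    rw [Finset.sum_Icc_succ_top (by omega)]
    refine (add_le_add_left ih _).trans ?_
    push_cast
    have h1 : 0 < Real.sqrt ((N : ℝ) + 1) := by positivity
    have h2 : 0 ≤ Real.sqrt (N : ℝ) := Real.sqrt_nonneg _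
    have h3 : Real.sqrt ((N : ℝ) + 1) ^ 2 = N + 1 := Real.sq_sqrt (by positivity)
    have h4 : Real.sqrt (N : ℝ) ^ 2 = N := Real.sq_sqrt (by positivity)
    have h5 : Real.sqrt (N : ℝ) ≤ Real.sqrt ((N : ℝ) + 1) := Real.sqrt_le_sqrt (by linarith)
    have h6 : 1 / Real.sqrt ((N : ℝ) + 1) ≤ 2 * Real.sqrt ((N : ℝ) + 1) - 2 * Real.sqrt N := by
      rw [div_le_iff₀ h1]
      nlinarith [sq_nonneg (Real.sqrt ((N : ℝ) + 1) - Real.sqrt N)]
    linarith

/-- `∑ a_p = O(L T^{β/2})` -/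
theorem sum_aa {φ : ℝ → ℝ} (h1 : ∀ u, φ u ≤ 1) {β : ℝ} (hβ : β ≤ 1) {T : ℝ}
    (hT : 1 ≤ T) : ∑ p ∈ SP β T, aa φ T p ≤ 2 * Real.log T * Real.sqrt (T ^ β) := by
  have hL : 0 ≤ Real.log T := Real.log_nonneg hT
  calc ∑ p ∈ SP β T, aa φ T p ≤ ∑ p ∈ SP β T, Real.log T * (1 / Real.sqrt p) := by
        refine Finset.sum_le_sum fun p hp => (aa_le h1 T p).trans ?_
        rw [mul_one_div]
        have := log_le_SP hβ hT hp
        gcongr
    _ ≤ ∑ p ∈ Finset.Icc 1 ⌊T ^ β⌋₊, Real.log T * (1 / Real.sqrt p) :=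
        Finset.sum_le_sum_of_subset_of_nonneg (Finset.filter_subset _ _) fun _ _ _ => by positivity
    _ = Real.log T * ∑ p ∈ Finset.Icc 1 ⌊T ^ β⌋₊, 1 / Real.sqrt p := by rw [Finset.mul_sum]
    _ ≤ Real.log T * (2 * Real.sqrt ⌊T ^ β⌋₊) := by
        have := sum_inv_sqrt ⌊T ^ β⌋₊
        gcongr
    _ ≤ Real.log T * (2 * Real.sqrt (T ^ β)) := by
        have := Nat.floor_le (Real.rpow_nonneg (by linarith : (0:ℝ) ≤ T) β)
        gcongr
    _ = _ := by ring

/-- `∑ a_p (√p + L) = O(L² T^β)` -/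
theorem sum_aa_err {φ : ℝ → ℝ} (h1 : ∀ u, φ u ≤ 1) {β : ℝ} (hβ : β ≤ 1) {T : ℝ}
    (hT : 3 ≤ T) : ∑ p ∈ SP β T, aa φ T p * (Real.sqrt p + Real.log T) ≤
      2 * Real.log T ^ 2 * T ^ β := by
  have hL : 1 ≤ Real.log T := by
    rw [Real.le_log_iff_exp_le (by linarith)]
    linarith [Real.exp_one_lt_d9]
  have hp0 : ∀ p ∈ SP β T, aa φ T p * (Real.sqrt p + Real.log T) ≤ 2 * Real.log T ^ 2 := by
    intro p hp
    have h2 := aa_le h1 T p
    have h3 := log_le_SP hβ (by linarith) hp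
    have h4 : 1 ≤ Real.sqrt p := by
      rw [Real.one_le_sqrt]
      exact_mod_cast ((mem_SP (by linarith)).1 hp).1.one_le
    have h5 : Real.sqrt p + Real.log T ≤ 2 * (Real.sqrt p * Real.log T) := by nlinarith
    have h6 : 0 ≤ Real.log p := Real.log_natCast_nonneg p
    calc aa φ T p * (Real.sqrt p + Real.log T) ≤
        Real.log p / Real.sqrt p * (2 * (Real.sqrt p * Real.log T)) := by gcongr
      _ = 2 * Real.log p * Real.log T := by field_simp
      _ ≤ 2 * Real.log T * Real.log T := by gcongr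
      _ = _ := by ring
  calc _ ≤ ∑ p ∈ SP β T, 2 * Real.log T ^ 2 := Finset.sum_le_sum hp0
    _ = (SP β T).card * (2 * Real.log T ^ 2) := by rw [Finset.sum_const, nsmul_eq_mul]
    _ ≤ (T ^ β) * (2 * Real.log T ^ 2) := by
        have h7 : ((SP β T).card : ℝ) ≤ T ^ β := by
          have h8 : (SP β T).card ≤ ⌊T ^ β⌋₊ := by
            refine (Finset.card_filter_le _ _).trans ?_
            simp
          exact (Nat.cast_le.2 h8).trans (Nat.floor_le (Real.rpow_nonneg (by linarith) β))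
        gcongr
    _ = _ := by ring

/-- off-diagonal terms -/
theorem sum_off {φ : ℝ → ℝ} (h0 : ∀ u, 0 ≤ φ u) (h1 : ∀ u, φ u ≤ 1) {β : ℝ} (hβ0 : 0 < β)
    (hβ : β ≤ 1) : ∃ C : ℝ, 0 < C ∧ ∀ᶠ T in atTop, ∑ p ∈ SP β T, ∑ q ∈ (SP β T).erase p,
      aa φ T p * aa φ T q * (Real.sqrt (p / q) + Real.sqrt (q / p) +
        Real.log T / |Real.log p - Real.log q|) ≤ C * (Real.log T ^ 4 * T ^ β) := by
  obtain ⟨C, hC, hd⟩ := Pool.Agent.helper19.LS.double_sum
  refine ⟨C, hC, ?_⟩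
  filter_upwards [(tendsto_rpow_atTop hβ0).eventually_ge_atTop 2, eventually_ge_atTop 3]
    with T hT2 hT
  have hL : 1 ≤ Real.log T := by
    rw [Real.le_log_iff_exp_le (by linarith)]
    linarith [Real.exp_one_lt_d9]
  set N := ⌊T ^ β⌋₊ with hN
  have hN2 : 2 ≤ N := Nat.le_floor (by exact_mod_cast hT2)
  have hNT : (N : ℝ) ≤ T ^ β := Nat.floor_le (Real.rpow_nonneg (by linarith) β)
  have hlN : Real.log N ≤ Real.log T := by
    refine Real.log_le_log (by positivity) (hNT.trans ?_)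
    calc T ^ β ≤ T ^ (1 : ℝ) := Real.rpow_le_rpow_of_exponent_le (by linarith) hβ
      _ = T := Real.rpow_one T
  have hterm : ∀ p ∈ SP β T, ∀ q ∈ (SP β T).erase p,
      aa φ T p * aa φ T q * (Real.sqrt (p / q) + Real.sqrt (q / p) +
        Real.log T / |Real.log p - Real.log q|) ≤ Real.log T ^ 3 *
      (1 / Real.sqrt ((p : ℝ) * q) * (Real.sqrt ((p : ℝ) / q) + Real.sqrt ((q : ℝ) / p) +
        1 / |Real.log p - Real.log q|)) := by
    intro p hp q hq
    have hq' := Finset.mem_of_mem_erase hq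
    have b1 := (aa_le h1 T p)
    have b2 := (aa_le h1 T q)
    have b3 := log_le_SP hβ (by linarith) hp
    have b4 := log_le_SP hβ (by linarith) hq'
    have p1 : 0 < Real.sqrt p := Real.sqrt_pos.2 (by
      exact_mod_cast ((mem_SP (by linarith)).1 hp).1.pos)
    have p2 : 0 < Real.sqrt q := Real.sqrt_pos.2 (by
      exact_mod_cast ((mem_SP (by linarith)).1 hq').1.pos)
    have b5 : aa φ T p ≤ Real.log T * (1 / Real.sqrt p) := by
      refine b1.trans ?_
      rw [mul_one_div]; gcongr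
    have b6 : aa φ T q ≤ Real.log T * (1 / Real.sqrt q) := by
      refine b2.trans ?_
      rw [mul_one_div]; gcongr
    have b7 : Real.sqrt (p / q) + Real.sqrt (q / p) +
        Real.log T / |Real.log p - Real.log q| ≤ Real.log T * (Real.sqrt (p / q) +
        Real.sqrt (q / p) + 1 / |Real.log p - Real.log q|) := by
      have e : Real.log T / |Real.log p - Real.log q| =
        Real.log T * (1 / |Real.log p - Real.log q|) := by ring
      rw [e]
      have := Real.sqrt_nonneg ((p : ℝ) / q)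
      have := Real.sqrt_nonneg ((q : ℝ) / p)
      nlinarith
    have n1 := aa_nonneg h0 T p
    have n2 := aa_nonneg h0 T q
    have n3 : 0 ≤ Real.sqrt (p / q) + Real.sqrt (q / p) +
        Real.log T / |Real.log p - Real.log q| := by positivity
    calc aa φ T p * aa φ T q * (Real.sqrt (p / q) + Real.sqrt (q / p) +
        Real.log T / |Real.log p - Real.log q|) ≤
        (Real.log T * (1 / Real.sqrt p)) * (Real.log T * (1 / Real.sqrt q)) *
        (Real.log T * (Real.sqrt (p / q) +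
        Real.sqrt (q / p) + 1 / |Real.log p - Real.log q|)) := by gcongr
      _ = _ := by
        rw [Real.sqrt_mul (Nat.cast_nonneg p)]
        field_simp
  calc _ ≤ ∑ p ∈ SP β T, ∑ q ∈ (SP β T).erase p, Real.log T ^ 3 *
      (1 / Real.sqrt ((p : ℝ) * q) * (Real.sqrt ((p : ℝ) / q) + Real.sqrt ((q : ℝ) / p) +
        1 / |Real.log p - Real.log q|)) :=
        Finset.sum_le_sum fun p hp => Finset.sum_le_sum fun q hq => hterm p hp q hq
    _ ≤ ∑ p ∈ Finset.Icc 1 N, ∑ q ∈ (Finset.Icc 1 N).erase p, Real.log T ^ 3 *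
      (1 / Real.sqrt ((p : ℝ) * q) * (Real.sqrt ((p : ℝ) / q) + Real.sqrt ((q : ℝ) / p) +
        1 / |Real.log p - Real.log q|)) := by
        refine (Finset.sum_le_sum_of_subset_of_nonneg (Finset.filter_subset _ _)
          fun p _ _ => Finset.sum_nonneg fun q _ => by positivity).trans ?_
        refine Finset.sum_le_sum fun p _ => ?_
        refine Finset.sum_le_sum_of_subset_of_nonneg ?_ fun q _ _ => by positivity
        exact Finset.erase_subset_erase _ (Finset.filter_subset _ _)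
    _ = Real.log T ^ 3 * ∑ p ∈ Finset.Icc 1 N, ∑ q ∈ (Finset.Icc 1 N).erase p,
      (1 / Real.sqrt ((p : ℝ) * q) * (Real.sqrt ((p : ℝ) / q) + Real.sqrt ((q : ℝ) / p) +
        1 / |Real.log p - Real.log q|)) := by
        rw [Finset.mul_sum]
        exact Finset.sum_congr rfl fun p _ => by rw [Finset.mul_sum]
    _ ≤ Real.log T ^ 3 * (C * (N * Real.log N)) := by
        have := hd N hN2
        gcongr
    _ ≤ Real.log T ^ 3 * (C * (T ^ β * Real.log T)) := by
        have : 0 ≤ Real.log N := Real.log_natCast_nonneg N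
        gcongr
    _ = _ := by ring

end Pool.Agent.helper30.LS
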