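import Pool.Agent.helper30.LS.Asym

/-!
# From symmetric sums to sums over `(0, T]`
-/

noncomputable section

namespace Pool.Agent.helper30.LS

open Complex MeasureTheory Set Filter Topology ArithmeticFunction
open Pool.Agent.helper30.LR
open Pool.Agent.helper18.LS (Wf)

/-- `(m(γ) - m(γ+α))₊` -/
def FF (α γ : ℝ) : ℝ := max ((mult γ : ℝ) - mult (γ + α)) 0

theorem FF_nonneg (α γ : ℝ) : 0 ≤ FF α γ := le_max_right _ _

theorem FF_le (α γ : ℝ) : FF α γ ≤ mult γ := by
  unfold FF
  have h1 : (0 : ℝ) ≤ mult γ := Nat.cast_nonneg _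
  have h2 : (0 : ℝ) ≤ mult (γ + α) := Nat.cast_nonneg _
  exact max_le (by linarith) h1

/-- indicator of `(0,T]` -/
def c1 (T t : ℝ) : ℝ := if 0 < t ∧ t ≤ T then 1 else 0

/-- indicator of `[-T,T]` -/
def c2 (T t : ℝ) : ℝ := if |t| ≤ T then 1 else 0

/-- boundary function -/
def be (α T t : ℝ) : ℝ :=
  (if |t| ≤ |α| then 1 else 0) + (if |t - T| ≤ |α| then 1 else 0) +
    (if |t + T| ≤ |α| then 1 else 0)

theorem be_nonneg (α T t : ℝ) : 0 ≤ be α T t := by
  unfold be; positivity

theorem summable_cpt (hRH : RiemannHypothesis) (g : ℝ → ℝ) (R : ℝ)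
    (hg : ∀ t, R < |t| → g t = 0) (h0 : ∀ t, mult t = 0 → g t = 0) : Summable g := by
  obtain ⟨hfin, -, -⟩ := hadXi hRH
  refine summable_of_hasFiniteSupport ((hfin R).subset fun t ht => ?_)
  rw [Function.mem_support] at ht
  refine ⟨?_, fun h => ht (h0 t h)⟩
  by_contra h
  exact ht (hg t (by linarith))

/-- total mass near the boundary -/
def RR (α T : ℝ) : ℝ := ∑' t : ℝ, be α T t * (mult t : ℝ)

theorem be_zero {α T t : ℝ} (hT : 0 ≤ T) (h : T + |α| < |t|) : be α T t = 0 := by
  unfold be
  have h1 : ¬ |t| ≤ |α| := by linarith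
  have h2 : ¬ |t - T| ≤ |α| := fun h' => by
    have := abs_sub_abs_le_abs_sub t T
    rw [abs_of_nonneg hT] at this
    linarith
  have h3 : ¬ |t + T| ≤ |α| := fun h' => by
    have := abs_sub_abs_le_abs_sub t (-T)
    rw [abs_neg, abs_of_nonneg hT, sub_neg_eq_add] at this
    linarith
  rw [if_neg h1, if_neg h2, if_neg h3]; norm_num

theorem RR_summable (hRH : RiemannHypothesis) (α : ℝ) {T : ℝ} (hT : 0 ≤ T) :
    Summable fun t : ℝ => be α T t * (mult t : ℝ) :=
  summable_cpt hRH _ (T + |α|) (fun t ht => by rw [be_zero hT ht, zero_mul])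
    fun t ht => by rw [ht]; simp

theorem pos_shift {t α : ℝ} (h : |α| < |t|) : 0 < t + α ↔ 0 < t := by
  have h1 := abs_lt.1 h
  rcases le_or_gt 0 t with h2 | h2
  · rw [abs_of_nonneg h2] at h1
    constructor
    · intro _
      rcases h2.lt_or_eq with h3 | h3
      · exact h3
      · rw [← h3] at h1; linarith [h1.1, h1.2]
    · intro _; linarith [h1.1]
  · rw [abs_of_neg h2] at h1
    constructor <;> intro h3 <;> linarith [h1.1, h1.2]

theorem c1_shift (α T t : ℝ) : |c1 T (t + α) - c1 T t| ≤ be α T t := by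
  by_cases h : |t| ≤ |α| ∨ |t - T| ≤ |α|
  · have h1 : 1 ≤ be α T t := by
      unfold be
      rcases h with h | h
      · rw [if_pos h]
        split_ifs <;> norm_num
      · rw [if_pos h]
        split_ifs <;> norm_num
    have h2 : |c1 T (t + α) - c1 T t| ≤ 1 := by
      unfold c1; split_ifs <;> norm_num
    linarith
  · push Not at h
    have h1 := pos_shift h.1
    have h2 := pos_shift h.2
    have e : c1 T (t + α) = c1 T t := by
      unfold c1
      have h3 : t + α ≤ T ↔ t ≤ T := by
        have h4 : t - T + α = t + α - T := by ring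
        rw [h4] at h2
        constructor
        · intro h5; by_contra h6; exact absurd (h2.2 (by linarith)) (by linarith)
        · intro h5; by_contra h6; exact absurd (h2.1 (by linarith)) (by linarith)
      simp only [h1, h3]
    rw [e, sub_self, abs_zero]
    exact be_nonneg _ _ _

theorem c2_shift (α : ℝ) {T : ℝ} (t : ℝ) : |c2 T (t + α) - c2 T t| ≤ be α T t := by
  by_cases h : |t - T| ≤ |α| ∨ |t + T| ≤ |α|
  · have h1 : 1 ≤ be α T t := by
      unfold be
      rcases h with h | h
      · rw [if_pos h]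
        split_ifs <;> norm_num
      · rw [if_pos h]
        split_ifs <;> norm_num
    have h2 : |c2 T (t + α) - c2 T t| ≤ 1 := by
      unfold c2; split_ifs <;> norm_num
    linarith
  · push Not at h
    have h1 := pos_shift h.1
    have h2 := pos_shift h.2
    have h1' := pos_shift (t := -(t - T)) (α := -α) (by rw [abs_neg, abs_neg]; exact h.1)
    have h2' := pos_shift (t := -(t + T)) (α := -α) (by rw [abs_neg, abs_neg]; exact h.2)
    have e : c2 T (t + α) = c2 T t := by
      unfold c2
      have h3 : |t + α| ≤ T ↔ |t| ≤ T := by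
        rw [abs_le, abs_le]
        constructor
        · rintro ⟨h5, h6⟩
          constructor
          · by_contra h7
            have := h2'.2 (by linarith)
            linarith
          · by_contra h7
            have := h1.2 (by linarith)
            linarith
        · rintro ⟨h5, h6⟩
          constructor
          · by_contra h7
            have := h2'.1 (by linarith)
            linarith
          · by_contra h7
            have := h1.1 (by linarith)
            linarith
      simp only [h3]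
    rw [e, sub_self, abs_zero]
    exact be_nonneg _ _ _

theorem c1_le_c2 (T t : ℝ) : c1 T t ≤ c2 T t := by
  unfold c1 c2
  by_cases h : 0 < t ∧ t ≤ T
  · have : |t| ≤ T := by rw [abs_of_pos h.1]; exact h.2
    rw [if_pos h, if_pos this]
  · rw [if_neg h]; split_ifs <;> norm_num

theorem c1_nonneg (T t : ℝ) : 0 ≤ c1 T t := by unfold c1; positivity

theorem c2_nonneg (T t : ℝ) : 0 ≤ c2 T t := by unfold c2; positivity

theorem c1_le_one (T t : ℝ) : c1 T t ≤ 1 := by unfold c1; split_ifs <;> norm_num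

theorem c1_zero {T t : ℝ} (h : T < |t|) : c1 T t = 0 := by
  unfold c1
  rw [if_neg]
  rintro ⟨h1, h2⟩
  rw [abs_of_pos h1] at h
  linarith

theorem c2_zero {T t : ℝ} (h : T < |t|) : c2 T t = 0 := by
  unfold c2
  rw [if_neg]; linarith

theorem c2_split {T : ℝ} (t : ℝ) (ht : t ≠ 0) : c2 T t = c1 T t + c1 T (-t) := by
  unfold c1 c2
  rcases lt_or_gt_of_ne ht with h | h
  · have h1 : ¬ (0 < t ∧ t ≤ T) := fun h' => by linarith [h'.1]
    rw [if_neg h1, abs_of_neg h]
    by_cases h2 : -t ≤ T
    · rw [if_pos h2, if_pos ⟨by linarith, h2⟩]; norm_num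
    · rw [if_neg h2, if_neg fun h' => h2 h'.2]; norm_num
  · have h1 : ¬ (0 < -t ∧ -t ≤ T) := fun h' => by linarith [h'.1]
    rw [if_neg h1, abs_of_pos h]
    by_cases h2 : t ≤ T
    · rw [if_pos h2, if_pos ⟨h, h2⟩]; norm_num
    · rw [if_neg h2, if_neg fun h' => h2 h'.2]; norm_num

theorem FF_neg (α s : ℝ) : FF α (-s) = FF α (s - α) + mult s - mult (s - α) := by
  unfold FF
  have h1 : mult (-s + α) = mult (s - α) := by
    rw [← mult_neg]; congr 1; ring
  rw [h1, mult_neg, sub_add_cancel]
  rcases le_total ((mult s : ℝ)) (mult (s - α)) with h | h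
  · rw [max_eq_right (by linarith), max_eq_left (by linarith)]; ring
  · rw [max_eq_left (by linarith), max_eq_right (by linarith)]; ring

/-- the symmetric sum is at most twice the one-sided sum -/
theorem sym_le (hRH : RiemannHypothesis) (α : ℝ) {T : ℝ} (hT : 0 ≤ T) :
    (Summable fun t : ℝ => c2 T t * FF α (t - α)) ∧
    ∑' t : ℝ, c2 T t * FF α (t - α) ≤ 2 * ∑' t : ℝ, c1 T t * FF α t + 4 * RR α T := by
  have hF0 : ∀ t, mult t = 0 → FF α t = 0 := fun t ht => by
    have h1 := FF_nonneg α t
    have h2 := FF_le α t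
    rw [ht] at h2
    exact le_antisymm (by simpa using h2) h1
  have hR := RR_summable hRH α hT
  -- summability of all pieces
  have u1 : Summable fun t : ℝ => c1 T t * FF α t :=
    summable_cpt hRH _ T (fun t ht => by rw [c1_zero ht, zero_mul])
      fun t ht => by rw [hF0 t ht, mul_zero]
  have u2 : Summable fun t : ℝ => c2 T t * FF α t :=
    summable_cpt hRH _ T (fun t ht => by rw [c2_zero ht, zero_mul])
      fun t ht => by rw [hF0 t ht, mul_zero]
  have u3 : Summable fun t : ℝ => c1 T t * (mult t : ℝ) :=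
    summable_cpt hRH _ T (fun t ht => by rw [c1_zero ht, zero_mul])
      fun t ht => by rw [ht]; simp
  have far : ∀ t : ℝ, T + |α| < |t| → T < |t + α| := fun t ht => by
    have h1 := abs_sub_abs_le_abs_sub t (-α)
    rw [abs_neg, sub_neg_eq_add] at h1
    linarith
  have v1 : Summable fun t : ℝ => c1 T (t + α) * FF α t :=
    summable_cpt hRH _ (T + |α|) (fun t ht => by rw [c1_zero (far t ht), zero_mul])
      fun t ht => by rw [hF0 t ht, mul_zero]
  have v2 : Summable fun t : ℝ => c2 T (t + α) * FF α t :=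
    summable_cpt hRH _ (T + |α|) (fun t ht => by rw [c2_zero (far t ht), zero_mul])
      fun t ht => by rw [hF0 t ht, mul_zero]
  have v3 : Summable fun t : ℝ => c1 T (t + α) * (mult t : ℝ) :=
    summable_cpt hRH _ (T + |α|) (fun t ht => by rw [c1_zero (far t ht), zero_mul])
      fun t ht => by rw [ht]; simp
  have w1 : Summable fun t : ℝ => c1 T t * FF α (t - α) := by
    have e : (fun t : ℝ => c1 T (t + α) * FF α t) =
        (fun t : ℝ => c1 T t * FF α (t - α)) ∘ (Equiv.addRight α) := by
      funext s; simp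
    rw [e] at v1
    exact (Equiv.addRight α).summable_iff.mp v1
  have w2 : Summable fun t : ℝ => c2 T t * FF α (t - α) := by
    have e : (fun t : ℝ => c2 T (t + α) * FF α t) =
        (fun t : ℝ => c2 T t * FF α (t - α)) ∘ (Equiv.addRight α) := by
      funext s; simp
    rw [e] at v2
    exact (Equiv.addRight α).summable_iff.mp v2
  have w3 : Summable fun t : ℝ => c1 T t * (mult (t - α) : ℝ) := by
    have e : (fun t : ℝ => c1 T (t + α) * (mult t : ℝ)) =
        (fun t : ℝ => c1 T t * (mult (t - α) : ℝ)) ∘ (Equiv.addRight α) := by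
      funext s; simp
    rw [e] at v3
    exact (Equiv.addRight α).summable_iff.mp v3
  refine ⟨w2, ?_⟩
  have x1 : ∑' t : ℝ, c1 T t * FF α (t - α) = ∑' t : ℝ, c1 T (t + α) * FF α t := by
    rw [← (Equiv.addRight α).tsum_eq]
    exact tsum_congr fun s => by simp
  have x2 : ∑' t : ℝ, c2 T t * FF α (t - α) = ∑' t : ℝ, c2 T (t + α) * FF α t := by
    rw [← (Equiv.addRight α).tsum_eq]
    exact tsum_congr fun s => by simp
  have x3 : ∑' t : ℝ, c1 T t * (mult (t - α) : ℝ) = ∑' t : ℝ, c1 T (t + α) * (mult t : ℝ) := by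
    rw [← (Equiv.addRight α).tsum_eq]
    exact tsum_congr fun s => by simp
  -- step (b)
  have y2 : ∑' t : ℝ, c2 T (t + α) * FF α t ≤ ∑' t : ℝ, c2 T t * FF α t + RR α T := by
    rw [RR, ← u2.tsum_add hR]
    refine v2.tsum_le_tsum (fun t => ?_) (u2.add hR)
    have h1 := (abs_le.1 (c2_shift α (T := T) t)).2
    have h2 := FF_nonneg α t
    have h3 := FF_le α t
    have h4 := be_nonneg α T t
    calc c2 T (t + α) * FF α t ≤ (c2 T t + be α T t) * FF α t := by gcongr; linarith
      _ = c2 T t * FF α t + be α T t * FF α t := by ring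
      _ ≤ _ := by gcongr
  have y1 : ∑' t : ℝ, c1 T (t + α) * FF α t ≤ ∑' t : ℝ, c1 T t * FF α t + RR α T := by
    rw [RR, ← u1.tsum_add hR]
    refine v1.tsum_le_tsum (fun t => ?_) (u1.add hR)
    have h1 := (abs_le.1 (c1_shift α T t)).2
    have h2 := FF_nonneg α t
    have h3 := FF_le α t
    have h4 := be_nonneg α T t
    calc c1 T (t + α) * FF α t ≤ (c1 T t + be α T t) * FF α t := by gcongr; linarith
      _ = c1 T t * FF α t + be α T t * FF α t := by ring
      _ ≤ _ := by gcongr
  have y3 : ∑' t : ℝ, c1 T t * (mult t : ℝ) ≤ ∑' t : ℝ, c1 T (t + α) * (mult t : ℝ) + RR α T := by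
    rw [RR, ← v3.tsum_add hR]
    refine u3.tsum_le_tsum (fun t => ?_) (v3.add hR)
    have h1 := (abs_le.1 (c1_shift α T t)).1
    have h2 : (0 : ℝ) ≤ mult t := Nat.cast_nonneg _
    calc c1 T t * (mult t : ℝ) ≤ (c1 T (t + α) + be α T t) * (mult t : ℝ) := by
          gcongr; linarith
      _ = _ := by ring
  -- step (c)
  have z1 : Summable fun t : ℝ => c1 T (-t) * FF α t :=
    summable_cpt hRH _ T (fun t ht => by rw [c1_zero (by rwa [abs_neg]), zero_mul])
      fun t ht => by rw [hF0 t ht, mul_zero]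
  have z2 : ∑' t : ℝ, c2 T t * FF α t ≤
      ∑' t : ℝ, c1 T t * FF α t + ∑' t : ℝ, c1 T (-t) * FF α t + RR α T := by
    rw [RR, ← u1.tsum_add z1, ← (u1.add z1).tsum_add hR]
    refine u2.tsum_le_tsum (fun t => ?_) ((u1.add z1).add hR)
    have h2 := FF_nonneg α t
    have h3 := FF_le α t
    have h4 := be_nonneg α T t
    have h5 : (0 : ℝ) ≤ mult t := Nat.cast_nonneg _
    by_cases ht : t = 0
    · have h6 : 1 ≤ be α T t := by
        unfold be
        rw [ht, abs_zero, if_pos (abs_nonneg α)]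
        split_ifs <;> norm_num
      have h7 : c2 T t ≤ 1 := by unfold c2; split_ifs <;> norm_num
      have h8 := mul_nonneg (c1_nonneg T t) h2
      have h9 := mul_nonneg (c1_nonneg T (-t)) h2
      nlinarith [mul_le_mul_of_nonneg_right h7 h2, mul_le_mul_of_nonneg_right h6 h5]
    · rw [c2_split t ht]
      have := mul_nonneg h4 h5
      nlinarith
  have z3 : ∑' t : ℝ, c1 T (-t) * FF α t = ∑' t : ℝ, c1 T t * FF α (-t) := by
    rw [← (Equiv.neg ℝ).tsum_eq]
    exact tsum_congr fun s => by simp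
  -- step (d)
  have z4 : ∑' t : ℝ, c1 T t * FF α (-t) = ∑' t : ℝ, c1 T t * FF α (t - α) +
      ∑' t : ℝ, c1 T t * (mult t : ℝ) - ∑' t : ℝ, c1 T t * (mult (t - α) : ℝ) := by
    rw [← w1.tsum_add u3, ← (w1.add u3).tsum_sub w3]
    refine tsum_congr fun t => ?_
    rw [FF_neg]; ring
  linarith

/-- the boundary mass is `O(log T)` -/
theorem RR_bound (hRH : RiemannHypothesis) (α : ℝ) : ∃ C : ℝ, 0 < C ∧ ∀ᶠ T in atTop,
    RR α T ≤ C * Real.log T := by
  obtain ⟨C, hC, h⟩ := local_count hRH
  refine ⟨3 * ((1 + α ^ 2) * (C * 2)), by positivity, ?_⟩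
  filter_upwards [eventually_ge_atTop 2] with T hT
  have hT0 : 0 ≤ T := by linarith
  have hind : ∀ x : ℝ, |x| ≤ T → (Summable fun t : ℝ => (if |t - x| ≤ |α| then (1 : ℝ) else 0) *
      (mult t : ℝ)) ∧ ∑' t : ℝ, (if |t - x| ≤ |α| then (1 : ℝ) else 0) * (mult t : ℝ) ≤
      (1 + α ^ 2) * (C * 2) * Real.log T := by
    intro x hx
    obtain ⟨h1, h2⟩ := h x
    have hs : Summable fun t : ℝ => (if |t - x| ≤ |α| then (1 : ℝ) else 0) * (mult t : ℝ) :=
      summable_cpt hRH _ (|x| + |α|) (fun t ht => by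
        rw [if_neg, zero_mul]
        intro h'
        have := abs_sub_abs_le_abs_sub t x
        linarith) fun t ht => by rw [ht]; simp
    refine ⟨hs, ?_⟩
    calc ∑' t : ℝ, (if |t - x| ≤ |α| then (1 : ℝ) else 0) * (mult t : ℝ) ≤
        ∑' t : ℝ, (1 + α ^ 2) * ((mult t : ℝ) / (1 + (x - t) ^ 2)) := by
          refine hs.tsum_le_tsum (fun t => ?_) (h1.mul_left _)
          split_ifs with h3
          · rw [one_mul, mul_div_assoc', le_div_iff₀ (by positivity)]
            have h4 : (x - t) ^ 2 ≤ α ^ 2 := by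
              rw [← sq_abs (x - t), ← sq_abs α, abs_sub_comm]
              exact pow_le_pow_left₀ (abs_nonneg _) h3 2
            have h5 : (0 : ℝ) ≤ mult t := Nat.cast_nonneg _
            nlinarith
          · rw [zero_mul]; positivity
      _ = (1 + α ^ 2) * ∑' t : ℝ, ((mult t : ℝ) / (1 + (x - t) ^ 2)) := tsum_mul_left
      _ ≤ (1 + α ^ 2) * (C * Real.log (|x| + 2)) := by gcongr
      _ ≤ (1 + α ^ 2) * (C * (2 * Real.log T)) := by
          have h6 : Real.log (T ^ 2) = 2 * Real.log T := by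
            rw [Real.log_pow]; norm_num
          have h7 : Real.log (|x| + 2) ≤ 2 * Real.log T := by
            rw [← h6]
            exact Real.log_le_log (by positivity) (by nlinarith)
          gcongr
      _ = _ := by ring
  obtain ⟨a1, b1⟩ := hind 0 (by rw [abs_zero]; exact hT0)
  obtain ⟨a2, b2⟩ := hind T (by rw [abs_of_nonneg hT0])
  obtain ⟨a3, b3⟩ := hind (-T) (by rw [abs_neg, abs_of_nonneg hT0])
  have e : RR α T = ∑' t : ℝ, (if |t - 0| ≤ |α| then (1 : ℝ) else 0) * (mult t : ℝ) +
      ∑' t : ℝ, (if |t - T| ≤ |α| then (1 : ℝ) else 0) * (mult t : ℝ) +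
      ∑' t : ℝ, (if |t - -T| ≤ |α| then (1 : ℝ) else 0) * (mult t : ℝ) := by
    rw [← a1.tsum_add a2, ← (a1.add a2).tsum_add a3, RR]
    refine tsum_congr fun t => ?_
    rw [be, sub_zero, sub_neg_eq_add]; ring
  rw [e]
  linarith

end Pool.Agent.helper30.LS
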