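import Pool.Agent.helper30.LS.Core

/-!
# Values of `BW` at `0`, `log p`, `log (p/q)`
-/

noncomputable section

namespace Pool.Agent.helper30.LS

open Complex MeasureTheory Set Filter Topology ArithmeticFunction
open Pool.Agent.helper30.LR
open Pool.Agent.helper18.LS (Wf)

theorem comb {ι : Type*} (J : ℕ) (c : ℕ → ℝ) (P : ℝ → ι → Prop) (F : ℕ → ℝ → ι → ℝ)
    (R : ℝ → ι → ℝ) (hR : ∀ T i, 0 ≤ R T i)
    (h : ∀ j, ∃ C : ℝ, ∀ᶠ T in atTop, ∀ i, P T i → |F j T i| ≤ C * R T i) :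
    ∃ C : ℝ, 0 < C ∧ ∀ᶠ T in atTop, ∀ i, P T i →
      |∑ j ∈ Finset.range J, c j * F j T i| ≤ C * R T i := by
  choose C hC using h
  refine ⟨∑ j ∈ Finset.range J, |c j| * |C j| + 1, ?_, ?_⟩
  · have : 0 ≤ ∑ j ∈ Finset.range J, |c j| * |C j| := Finset.sum_nonneg fun _ _ => by positivity
    linarith
  · have h2 : ∀ᶠ T in atTop, ∀ j ∈ Finset.range J, ∀ i, P T i → |F j T i| ≤ C j * R T i :=
      (Filter.eventually_all_finset _).2 fun j _ => hC j
    filter_upwards [h2] with T hT i hi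
    refine (Finset.abs_sum_le_sum_abs _ _).trans ?_
    have h3 : ∑ j ∈ Finset.range J, |c j * F j T i| ≤
        ∑ j ∈ Finset.range J, |c j| * |C j| * R T i := by
      refine Finset.sum_le_sum fun j hj => ?_
      rw [abs_mul, mul_assoc]
      refine mul_le_mul_of_nonneg_left ?_ (abs_nonneg _)
      refine (hT j hj i hi).trans ?_
      exact mul_le_mul_of_nonneg_right (le_abs_self _) (hR T i)
    rw [← Finset.sum_mul] at h3
    have := hR T i
    linarith

/-- `∫ W / (2π)` -/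
def ww (J : ℕ) (c : ℕ → ℝ) : ℝ :=
  1 / (2 * Real.sqrt Real.pi) * ∑ j ∈ Finset.range J, c j / Real.sqrt ((j : ℝ) + 1)

theorem tendsto_scale (j : ℕ) :
    Tendsto (fun T : ℝ => T / Real.sqrt ((j : ℝ) + 1)) atTop atTop :=
  tendsto_id.atTop_div_const (by positivity)

theorem scale_log {T : ℝ} (hT : 1 ≤ T) (j : ℕ) :
    |T / Real.sqrt ((j : ℝ) + 1) * Real.log (T / Real.sqrt ((j : ℝ) + 1)) -
      T / Real.sqrt ((j : ℝ) + 1) * Real.log T| ≤ Real.log ((j : ℝ) + 1) * T := by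
  have h1 : (0 : ℝ) < (j : ℝ) + 1 := by positivity
  have h2 : 1 ≤ Real.sqrt ((j : ℝ) + 1) := by
    rw [Real.one_le_sqrt]; linarith [(Nat.cast_nonneg j : (0 : ℝ) ≤ j)]
  have h3 : 0 ≤ Real.log ((j : ℝ) + 1) := Real.log_nonneg (by
    linarith [(Nat.cast_nonneg j : (0 : ℝ) ≤ j)])
  rw [Real.log_div (by linarith) (by positivity), Real.log_sqrt h1.le]
  have e : T / Real.sqrt ((j : ℝ) + 1) * (Real.log T - Real.log ((j : ℝ) + 1) / 2) -
      T / Real.sqrt ((j : ℝ) + 1) * Real.log T =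
      -(T / Real.sqrt ((j : ℝ) + 1) * (Real.log ((j : ℝ) + 1) / 2)) := by ring
  rw [e, abs_neg, abs_of_nonneg (by positivity)]
  have h4 : T / Real.sqrt ((j : ℝ) + 1) ≤ T := by
    rw [div_le_iff₀ (by positivity)]; nlinarith
  calc T / Real.sqrt ((j : ℝ) + 1) * (Real.log ((j : ℝ) + 1) / 2) ≤
      T * (Real.log ((j : ℝ) + 1)) := by
        refine mul_le_mul h4 (by linarith) (by positivity) (by linarith)
    _ = _ := mul_comm _ _

theorem BW_zero (hRH : RiemannHypothesis) (J : ℕ) (c : ℕ → ℝ) :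
    ∃ C : ℝ, 0 < C ∧ ∀ᶠ T in atTop, |BW J c T 0 - T * ww J c * Real.log T| ≤ C * T := by
  obtain ⟨C0, H0, hC0, h0⟩ := Pool.Agent.helper29.LS.val_zero hRH
  have key := comb (ι := Unit) J c (fun _ _ => True)
    (fun j T _ => BB (T / Real.sqrt ((j : ℝ) + 1)) 0 -
      T / Real.sqrt ((j : ℝ) + 1) / (2 * Real.sqrt Real.pi) * Real.log T) (fun T _ => |T|)
    (fun T _ => abs_nonneg _) (fun j => by
      refine ⟨C0 + Real.log ((j : ℝ) + 1), ?_⟩
      filter_upwards [(tendsto_scale j).eventually_ge_atTop H0, eventually_ge_atTop 1]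
        with T hT hT1 _ _
      have h1 := h0 _ hT
      have h2 := scale_log hT1 j
      have hs : 1 ≤ 2 * Real.sqrt Real.pi := by
        have : 1 ≤ Real.sqrt Real.pi := by
          rw [Real.one_le_sqrt]; linarith [Real.pi_gt_three]
        linarith
      have hj : 1 ≤ Real.sqrt ((j : ℝ) + 1) := by
        rw [Real.one_le_sqrt]; linarith [(Nat.cast_nonneg j : (0 : ℝ) ≤ j)]
      have h4 : T / Real.sqrt ((j : ℝ) + 1) ≤ T := by
        rw [div_le_iff₀ (by positivity)]; nlinarith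
      set H := T / Real.sqrt ((j : ℝ) + 1)
      have h5 : |H / (2 * Real.sqrt Real.pi) * Real.log H - H / (2 * Real.sqrt Real.pi) *
          Real.log T| ≤ Real.log ((j : ℝ) + 1) * T := by
        have e : H / (2 * Real.sqrt Real.pi) * Real.log H - H / (2 * Real.sqrt Real.pi) *
          Real.log T = (H * Real.log H - H * Real.log T) / (2 * Real.sqrt Real.pi) := by ring
        rw [e, abs_div, abs_of_pos (by positivity : 0 < 2 * Real.sqrt Real.pi)]
        exact (div_le_self (abs_nonneg _) hs).trans h2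
      rw [abs_of_nonneg (by linarith : 0 ≤ T)]
      calc |BB H 0 - H / (2 * Real.sqrt Real.pi) * Real.log T| =
          |(BB H 0 - H / (2 * Real.sqrt Real.pi) * Real.log H) +
            (H / (2 * Real.sqrt Real.pi) * Real.log H - H / (2 * Real.sqrt Real.pi) *
          Real.log T)| := by congr 1; ring
        _ ≤ C0 * H + Real.log ((j : ℝ) + 1) * T := (abs_add_le _ _).trans (add_le_add h1 h5)
        _ ≤ C0 * T + Real.log ((j : ℝ) + 1) * T := by gcongr
        _ = _ := by ring)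
  obtain ⟨C, hC, h⟩ := key
  refine ⟨C, hC, ?_⟩
  filter_upwards [h, eventually_ge_atTop 0] with T hT hT0
  have h1 := hT () trivial
  rw [abs_of_nonneg hT0] at h1
  refine le_trans (le_of_eq ?_) h1
  congr 1
  rw [BW, ww, mul_comm (1 / (2 * Real.sqrt Real.pi)), ← mul_assoc, Finset.mul_sum,
    Finset.sum_mul, Finset.sum_mul, ← Finset.sum_sub_distrib]
  refine Finset.sum_congr rfl fun j _ => ?_
  ring

theorem pow_scale {β β' : ℝ} (h : β < β') (j : ℕ) :
    ∀ᶠ T : ℝ in atTop, T ^ β ≤ (T / Real.sqrt ((j : ℝ) + 1)) ^ β' := by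
  have h1 : Tendsto (fun T : ℝ => T ^ (β' - β)) atTop atTop :=
    tendsto_rpow_atTop (by linarith)
  filter_upwards [h1.eventually_ge_atTop (Real.sqrt ((j : ℝ) + 1) ^ β'), eventually_gt_atTop 0]
    with T hT hT0
  rw [Real.div_rpow hT0.le (by positivity), le_div_iff₀ (by positivity)]
  calc T ^ β * Real.sqrt ((j : ℝ) + 1) ^ β' ≤ T ^ β * T ^ (β' - β) := by gcongr
    _ = T ^ β' := by rw [← Real.rpow_add hT0]; congr 1; ring

theorem BW_prime (hRH : RiemannHypothesis) (J : ℕ) (c : ℕ → ℝ) {β : ℝ} (h0 : 0 < β)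
    (h1 : β < 1) :
    ∃ C : ℝ, 0 < C ∧ ∀ᶠ T in atTop, ∀ p : ℕ, p.Prime → (p : ℝ) ≤ T ^ β →
      |BW J c T (Real.log p) + T * ww J c * (Real.log p / Real.sqrt p)| ≤
        C * (Real.sqrt p + Real.log T) := by
  obtain ⟨C0, H0, hC0, hv⟩ := Pool.Agent.helper29.LS.val_prime
    Pool.Agent.helper43.LS.arch_decay hRH (β := (1 + β) / 2) (by linarith) (by linarith)
  have key := comb (ι := ℕ) J c (fun T p => p.Prime ∧ (p : ℝ) ≤ T ^ β)
    (fun j T p => BB (T / Real.sqrt ((j : ℝ) + 1)) (Real.log p) +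
      T / Real.sqrt ((j : ℝ) + 1) / (2 * Real.sqrt Real.pi) * (Real.log p / Real.sqrt p))
    (fun T p => Real.sqrt p + |Real.log T|)
    (fun T _ => by positivity) (fun j => by
      refine ⟨C0, ?_⟩
      filter_upwards [(tendsto_scale j).eventually_ge_atTop (max H0 1), eventually_ge_atTop 1,
        pow_scale (by linarith : β < (1 + β) / 2) j] with T hT hT1 hT2 p hp
      have hT' : H0 ≤ T / Real.sqrt ((j : ℝ) + 1) := (le_max_left _ _).trans hT
      have hT'' : 1 ≤ T / Real.sqrt ((j : ℝ) + 1) := (le_max_right _ _).trans hT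
      refine (hv _ hT' p hp.1 (hp.2.trans hT2)).trans ?_
      have hj : 1 ≤ Real.sqrt ((j : ℝ) + 1) := by
        rw [Real.one_le_sqrt]; linarith [(Nat.cast_nonneg j : (0 : ℝ) ≤ j)]
      have h4 : T / Real.sqrt ((j : ℝ) + 1) ≤ T := by
        rw [div_le_iff₀ (by positivity)]; nlinarith
      have h5 : Real.log (T / Real.sqrt ((j : ℝ) + 1)) ≤ |Real.log T| :=
        (Real.log_le_log (by linarith) h4).trans (le_abs_self _)
      gcongr)
  obtain ⟨C, hC, h⟩ := key
  refine ⟨C, hC, ?_⟩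
  filter_upwards [h, eventually_ge_atTop 1] with T hT hT0 p hp hpT
  have h1 := hT p ⟨hp, hpT⟩
  rw [abs_of_nonneg (Real.log_nonneg hT0)] at h1
  refine le_trans (le_of_eq ?_) h1
  congr 1
  rw [BW, ww, mul_comm (1 / (2 * Real.sqrt Real.pi)), ← mul_assoc, Finset.mul_sum,
    Finset.sum_mul, Finset.sum_mul, ← Finset.sum_add_distrib]
  refine Finset.sum_congr rfl fun j _ => ?_
  ring

theorem BW_ratio (hRH : RiemannHypothesis) (J : ℕ) (c : ℕ → ℝ) {β : ℝ} (h0 : 0 < β)
    (h1 : β < 1) :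
    ∃ C : ℝ, 0 < C ∧ ∀ᶠ T in atTop, ∀ p q : ℕ, p.Prime → q.Prime → p ≠ q → (p : ℝ) ≤ T ^ β →
      (q : ℝ) ≤ T ^ β → |BW J c T (Real.log p - Real.log q)| ≤
        C * (Real.sqrt (p / q) + Real.sqrt (q / p) + Real.log T / |Real.log p - Real.log q|) := by
  obtain ⟨C0, H0, hC0, hv⟩ := Pool.Agent.helper29.LS.val_ratio
    Pool.Agent.helper43.LS.arch_decay hRH (β := (1 + β) / 2) (by linarith) (by linarith)
  have key := comb (ι := ℕ × ℕ) J c (fun T p => p.1.Prime ∧ p.2.Prime ∧ p.1 ≠ p.2 ∧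
      (p.1 : ℝ) ≤ T ^ β ∧ (p.2 : ℝ) ≤ T ^ β)
    (fun j T p => BB (T / Real.sqrt ((j : ℝ) + 1)) (Real.log p.1 - Real.log p.2))
    (fun T p => Real.sqrt (p.1 / p.2) + Real.sqrt (p.2 / p.1) +
      |Real.log T| / |Real.log p.1 - Real.log p.2|)
    (fun T _ => by positivity) (fun j => by
      refine ⟨C0, ?_⟩
      filter_upwards [(tendsto_scale j).eventually_ge_atTop (max H0 1), eventually_ge_atTop 1,
        pow_scale (by linarith : β < (1 + β) / 2) j] with T hT hT1 hT2 p hp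
      obtain ⟨hp1, hp2, hpq, hp3, hp4⟩ := hp
      have hT' : H0 ≤ T / Real.sqrt ((j : ℝ) + 1) := (le_max_left _ _).trans hT
      have hT'' : 1 ≤ T / Real.sqrt ((j : ℝ) + 1) := (le_max_right _ _).trans hT
      refine (hv _ hT' p.1 p.2 hp1 hp2 hpq (hp3.trans hT2) (hp4.trans hT2)).trans ?_
      have hj : 1 ≤ Real.sqrt ((j : ℝ) + 1) := by
        rw [Real.one_le_sqrt]; linarith [(Nat.cast_nonneg j : (0 : ℝ) ≤ j)]
      have h4 : T / Real.sqrt ((j : ℝ) + 1) ≤ T := by
        rw [div_le_iff₀ (by positivity)]; nlinarith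
      have h5 : Real.log (T / Real.sqrt ((j : ℝ) + 1)) ≤ |Real.log T| :=
        (Real.log_le_log (by linarith) h4).trans (le_abs_self _)
      gcongr)
  obtain ⟨C, hC, h⟩ := key
  refine ⟨C, hC, ?_⟩
  filter_upwards [h, eventually_ge_atTop 1] with T hT hT0 p q hp hq hpq hpT hqT
  have h1 := hT (p, q) ⟨hp, hq, hpq, hpT, hqT⟩
  rw [abs_of_nonneg (Real.log_nonneg hT0)] at h1
  exact h1

theorem MM_eq (T : ℝ) : MM T = BB (2 * T) 0 := by
  unfold MM BB
  refine tsum_congr fun t => ?_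
  rw [zero_mul, Real.cos_zero, mul_one]
  congr 2
  rw [div_pow, mul_pow]
  by_cases h : T = 0
  · simp [h]
  · field_simp; ring

theorem MM_bound (hRH : RiemannHypothesis) :
    ∃ C : ℝ, 0 < C ∧ ∀ᶠ T in atTop, MM T ≤ C * (T * Real.log T) := by
  obtain ⟨C0, H0, hC0, h0⟩ := Pool.Agent.helper29.LS.val_zero hRH
  refine ⟨4 + 2 * C0, by positivity, ?_⟩
  filter_upwards [eventually_ge_atTop (max H0 4)] with T hT
  have hT4 : 4 ≤ T := (le_max_right _ _).trans hT
  have hTH : H0 ≤ 2 * T := by linarith [(le_max_left H0 4).trans hT]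
  rw [MM_eq]
  have h1 := (abs_le.1 (h0 _ hTH)).2
  have h2 : Real.log (2 * T) ≤ 2 * Real.log T := by
    have h : Real.log (T ^ 2) = 2 * Real.log T := by
      rw [Real.log_pow]; norm_num
    rw [← h]
    exact Real.log_le_log (by positivity) (by nlinarith)
  have h3 : 1 ≤ Real.log T := by
    rw [Real.le_log_iff_exp_le (by linarith)]
    linarith [Real.exp_one_lt_d9]
  have hs : 1 ≤ Real.sqrt Real.pi := by
    rw [Real.one_le_sqrt]; linarith [Real.pi_gt_three]
  have h4 : 2 * T / (2 * Real.sqrt Real.pi) ≤ T := by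
    rw [div_le_iff₀ (by positivity)]; nlinarith
  have h5 : 0 ≤ Real.log (2 * T) := Real.log_nonneg (by linarith)
  calc BB (2 * T) 0 ≤ 2 * T / (2 * Real.sqrt Real.pi) * Real.log (2 * T) + C0 * (2 * T) := by
        linarith
    _ ≤ T * (2 * Real.log T) + C0 * (2 * T) * Real.log T := by
        refine add_le_add (mul_le_mul h4 h2 h5 (by linarith)) ?_
        have : 0 ≤ C0 * (2 * T) := by positivity
        nlinarith
    _ ≤ _ := by nlinarith [mul_nonneg (by linarith : (0:ℝ) ≤ T) (by linarith : 0 ≤ Real.log T)]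

end Pool.Agent.helper30.LS
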